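import Pool.Agent.Helper38.RS.Defs

/-!
# Project RS (MP_fc6b1e_nt), part II: duality by counting

If `Sel(a)` contains an element which is not a square then there is a quadratic ray class character
`ψ` of `M` with the properties of the dual Selmer group. `S.unit M` is the group of `S`-units of
Mathlib (`Set.unit`): the `x : Mˣ` with `v.valuation M x = 1` for all `v ∉ S`.
-/

namespace Pool.Agent.Helper38.RS

open NumberField Polynomial Module IsDedekindDomain TensorProduct Pool.Agent.Helper51.SigLeo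

/-- The local conditions at the primes of `S` and at the places of `T`. -/
structure LSat {k : Type} [NormedField k] {M : Type} [Field M] [NumberField M]
    (L : IwasawaLog 2 k) (T : Set (M →+* k)) (S : Set (HeightOneSpectrum (𝓞 M))) (a : M)
    (x : Mˣ) : Prop where
  even : ∀ w ∈ S, Even (ordv w a) → Even (ordv w (x : M))
  tame : ∀ w ∈ S, ¬ Even (ordv w a) → Tame w a x
  sig : LocSig L T x

/-- `S` is a finite set of primes of `M`, stable under `Gal(M/K)`, which contains the primes above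
`2` and the primes where `a` has odd valuation. -/
structure SSet (K M : Type) [Field K] [Field M] [NumberField M] [Algebra K M]
    (a : M) (S : Set (HeightOneSpectrum (𝓞 M))) : Prop where
  fin : S.Finite
  stable : ∀ w ∈ S, ∀ v, ConjP K v w → v ∈ S
  two : ∀ w : HeightOneSpectrum (𝓞 M), w.valuation M 2 < 1 → w ∈ S
  odd : ∀ w : HeightOneSpectrum (𝓞 M), ¬ Even (ordv w a) → w ∈ S

/-- **S_SUB.** The local conditions define a subgroup of `Mˣ` which contains the squares and is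
stable under `δ`.

PROOF. Valuations are additive. `LocSq w x` and `LocSq w x'` imply `LocSq w (x x')`: multiply the
`y`s (`x y² = 1 + e`, `x' y'² = 1 + e'` with `e, e'` of valuation `< 1`); `LocSq w x` implies
`LocSq w x⁻¹` (use `y⁻¹`); `LocSq w (c² x)`, `c ≠ 0`, implies `LocSq w x` (use `c y`); `LocSq w (c²)`
holds for `c ≠ 0`. So `Tame w a` is closed under products: if `LocSq w x` and `LocSq w (-(a x'))`
then `LocSq w (-(a x x'))`; if `LocSq w (-(a x))` and `LocSq w (-(a x'))` then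
`LocSq w (a² x x')`, `LocSq w (x x')`. Inverses: `-(a x)⁻¹ = a⁻² (-(a x⁻¹))` (note `a ≠ 0` when its
valuation is odd). `LocSig`: if `SigSmall N (x y²)` and `SigSmall N (x' y'²)` then
`SigSmall N (x x' (y y')²)` (norm multiplicative, `L` additive, ultrametric inequality), inverses
and squares are clear (`L 1 = 0`). Stability under `δ`: for `w ∈ S` the prime `w' = δ⁻¹ w`, with
`w'.valuation y = w.valuation (δ y)`, is in `S`; `δ a = a` because `a ∈ K`, and the statement for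
`(w', x)` gives the one for `(w, δ x)` by applying `δ` to the equations; for `τ ∈ above T`, also
`τ ∘ δ ∈ above T`, and `SigSmall N (δ x (δ y)²)` follows from `SigSmall N (x y²)`. -/
def S_SUB : Prop :=
  ∀ (k : Type) [NormedField k] [IsUltrametricDist k] (L : IwasawaLog 2 k) (K M : Type)
    [Field K] [NumberField K] [Field M] [NumberField M] [Algebra K M] (δ : M ≃ₐ[K] M)
    (T : Set (K →+* k)) (a : K) (S : Set (HeightOneSpectrum (𝓞 M))),
    SSet K M (algebraMap K M a) S →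
  ∃ G : Subgroup Mˣ, (∀ x, x ∈ G ↔ LSat L (above T) S (algebraMap K M a) x) ∧
    (∀ x, Sq x → x ∈ G) ∧
    ∀ x ∈ G, Units.map ((δ : M →+* M) : M →* M) x ∈ G

/-- **S_SEX.** Let `M/K` be a finite Galois extension of number fields and `Z` a finite set of primes
of `M`. There is a finite set `S ⊇ Z` of primes, stable under `Gal(M/K)`, such that every divisor is
principal outside `S`.

PROOF. The class group of `M` is finite; let `I_1, ..., I_h` be nonzero integral ideals representing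
its classes. Let `S` be the set of all the conjugates (under the finite group `Gal(M/K)`) of the
primes in `Z` and the primes dividing `I_1 ⋯ I_h`. For a finitely supported
`n : primes → ℤ` the fractional ideal `J = ∏ w^(n w)` is in the class of some `I_i`:
`J = x I_i`, `x ∈ Mˣ`; so `ord_w(x) = n w` for `w ∉ S`. -/
def S_SEX : Prop :=
  ∀ (K M : Type) [Field K] [NumberField K] [Field M] [NumberField M] [Algebra K M]
    (Z : Set (HeightOneSpectrum (𝓞 M))), Z.Finite →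
  ∃ S : Set (HeightOneSpectrum (𝓞 M)), S.Finite ∧ Z ⊆ S ∧
    (∀ w ∈ S, ∀ v, ConjP K v w → v ∈ S) ∧
    ∀ n : HeightOneSpectrum (𝓞 M) →₀ ℤ, ∃ x : Mˣ, ∀ w ∉ S, ordv w (x : M) = n w

/-- **S_LEM** (counting the `P`-part of `A/2A`). Let `A` be a finitely generated abelian group, `δ`
an endomorphism with `δ^m = 1` which fixes the elements of 2-power order, `ζ'` a primitive `m`-th
root of unity in `ℂ` and `μ` the dimension of the `ζ'`-eigenspace of `δ` in `ℂ ⊗ A`. A set of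
elements `x` of `A` with `P(δ) x ∈ 2A` which are pairwise incongruent modulo `2A` has at most
`2^(deg P · μ)` elements.

PROOF. Let `A' = A/torsion`, free of rank `r`, `D` the matrix of `δ`. (1) If `x ∈ A`,
`P(δ) x ∈ 2A` and the image of `x` in `A'/2A'` is zero then `x ∈ 2A`: `x = 2b + τ`, `τ` torsion, and
we may suppose that `τ` has 2-power order (an element of odd order is in `2A`); `δ τ = τ`, so
`P(δ) x` is congruent to `(number of j ∈ supp P) · τ` modulo `2A`, and this number is odd: it is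
`P(1) mod 2`, and `P(1) ≠ 0` as `P` is irreducible of degree `≥ 2`. So `τ ∈ 2A`. Hence the elements of
the given set have distinct images in `{c ∈ A'/2A' : P(D̄) c = 0} = ker P(D̄)`, `D̄ = D mod 2`, acting
on `F_2^r`. (Apply this to the differences.)
(2) Let `c(X) = charpoly D ∈ ℤ[X]`, monic. All its complex roots are `m`-th roots of unity, so
`c = ∏_{e ∣ m} Φ_e^(μ_e)` (cyclotomic polynomials: the minimal polynomial over `ℚ` of each root of `c`
is a `Φ_e`, `e ∣ m`; Gauss). `D` is diagonalisable over `ℂ` (`D^m = 1`), so the dimension `μ` of the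
`ζ'`-eigenspace (in `ℂ^r = ℂ ⊗ A' = ℂ ⊗ A`) is the multiplicity of `ζ'` in `c`, which is `μ_m`.
(3) Modulo 2: `X^m - 1` is squarefree modulo 2 (`m` odd) and is the product of the `Φ_e`, `e ∣ m`. `P`
divides `X^m - 1`, and it is coprime to `X^e - 1` hence to `Φ_e` for `e ∣ m`, `e < m`; so `P` divides
`Φ_m mod 2` exactly once, and the multiplicity of `P` in `c mod 2 = charpoly D̄` is `μ_m`. Since
`D̄^m = 1` and `X^m - 1` is squarefree, `ker P(D̄)` is the whole `P`-primary component of `F_2^r`, which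
has dimension `deg P` times the multiplicity of `P` in the characteristic polynomial. So
`dim ker P(D̄) = deg P · μ`. -/
def S_LEM : Prop :=
  ∀ (k : Type) [NormedField k] [NormedAlgebra ℚ_[2] k] (m : ℕ) (ζ : k) (Φ : ℤ_[2][X])
    (P : (ZMod 2)[X]), PhiData m ζ Φ P →
  ∀ (A : Type) [AddCommGroup A] [Module.Finite ℤ A] (δ : A →+ A),
    (∀ x, δ^[m] x = x) → (∀ (x : A) (n : ℕ), 2 ^ n • x = 0 → δ x = x) →
  ∀ (ζ' : ℂ), IsPrimitiveRoot ζ' m → ∀ F : Finset A,
    (∀ x ∈ F, ∃ b, ∑ j ∈ P.support, δ^[j] x = 2 • b) →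
    (∀ x ∈ F, ∀ y ∈ F, x ≠ y → ¬ ∃ b, x = y + 2 • b) →
    F.card ≤ 2 ^ (P.natDegree *
      finrank ℂ (LinearMap.ker ((extEnd δ : (ℂ ⊗[ℤ] A) →ₗ[ℂ] (ℂ ⊗[ℤ] A)) - ζ' • LinearMap.id)))

/-- **S_EIG** (the eigenspace of the `S`-units). Let `K` be totally complex of degree `2d`, `M/K`
cyclic of degree `m` with generator `δ`, `S` a finite stable set of primes of `M` which contains
exactly `m s₀` primes with trivial decomposition group. Then the group `A` of `S`-units is finitely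
generated and the `ζ'`-eigenspace of `δ` in `ℂ ⊗ A` has dimension at most `d + s₀`, for a primitive
`m`-th root of unity `ζ' ∈ ℂ`.

PROOF. The homomorphism `A → ℤ^S`, `x ↦ (ord_w x)_{w ∈ S}` has kernel `𝓞_Mˣ`, so `A` is finitely
generated. Let `V = ℂ^(infinite places of M) ⊕ ℂ^S` and
`Λ : ℂ ⊗ A → V`, `x ↦ ((log |x|_v)_v, (ord_w x)_w)`. `Λ` is injective: an element of the kernel goes
to `0` in `ℂ ⊗ ℤ^S`, so (flatness of `ℂ` over `ℤ`, exactness of `0 → 𝓞_Mˣ → A → ℤ^S`) it comes from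
`ℂ ⊗ 𝓞_Mˣ`, and `ℂ ⊗ 𝓞_Mˣ → ℂ^(places)` is injective by Dirichlet's theorem (the fundamental units
have logarithmic vectors which are linearly independent over `ℝ`, hence over `ℂ`; Mathlib:
`basisUnitLattice`, `unitLattice_span_eq_top`, or the regulator `≠ 0`). `δ` acts on `V` by permuting
the coordinates, compatibly with `Λ` (`log |δ x|_v = log |x|_{v ∘ δ}`, `ord_w(δ x) = ord_{w'}(x)`
with `w' = δ⁻¹ w`). So the dimension is at most that of the `ζ'`-eigenspace of a permutation `σ` of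
a finite set `Y` on `ℂ^Y`: an eigenvector `f`, `f(σ y) = ζ' f(y)`, is determined by its values at one
point of each `⟨σ⟩`-orbit, and it vanishes on the orbits of length `e < m` as `ζ'^e ≠ 1`. So the
dimension is the number of orbits of length `m`, `1/m` times the number of points with trivial
stabiliser in the group `⟨δ⟩ = Gal(M/K)` of order `m`. For `Y = S` this is `s₀`. For
the infinite places: `M` is totally complex, it has `m d` infinite places, and they have at most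
`m d` elements in orbits of length `m`. (So nothing about the stabilisers is needed here.) -/
def S_EIG : Prop :=
  ∀ (K M : Type) [Field K] [NumberField K] [IsTotallyComplex K] [Field M] [NumberField M]
    [Algebra K M] [IsGalois K M] (m d s₀ : ℕ) (δ : M ≃ₐ[K] M), orderOf δ = m → finrank K M = m →
    finrank ℚ K = 2 * d → 0 < m →
  ∀ S : Set (HeightOneSpectrum (𝓞 M)), S.Finite → (∀ w ∈ S, ∀ v, ConjP K v w → v ∈ S) →
    {w ∈ S | FreeP K w}.ncard = m * s₀ →
  ∀ ζ' : ℂ, IsPrimitiveRoot ζ' m →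
  ∃ D : Additive (S.unit M) →+ Additive (S.unit M),
    (∀ x : S.unit M, (((D (Additive.ofMul x)).toMul : S.unit M) : Mˣ) =
      Units.map ((δ : M →+* M) : M →* M) (x : Mˣ)) ∧
    Module.Finite ℤ (Additive (S.unit M)) ∧
    finrank ℂ (LinearMap.ker ((extEnd D : (ℂ ⊗[ℤ] Additive (S.unit M)) →ₗ[ℂ]
      (ℂ ⊗[ℤ] Additive (S.unit M))) - ζ' • LinearMap.id)) ≤ d + s₀

/-- **S_UPB** (upper bound for the `S`-units). With the conventions of `S_EIG` and `PhiData`, a set of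
`S`-units `x` with `P(δ) x` a square in `Mˣ`, pairwise incongruent modulo squares of `Mˣ`, has at
most `2^(deg P (d + s₀))` elements.

PROOF. Apply `S_LEM` to `A = S.unit M` with `D` of `S_EIG`. `D^m = 1` as `δ^m = 1`. Elements of
2-power order are roots of unity of 2-power order in `M`; they form a finite cyclic group of order
`2^e` on which `δ` acts by `x ↦ x^i`, `i` odd, with `i^m ≡ 1 mod 2^e`; as `(ℤ/2^e)ˣ` is a 2-group and
`m` is odd, `i ≡ 1`. If an `S`-unit is a square of `y ∈ Mˣ` then `y` is an `S`-unit. -/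
def S_UPB : Prop :=
  ∀ (k : Type) [NormedField k] [NormedAlgebra ℚ_[2] k] (K M : Type) [Field K] [NumberField K]
    [IsTotallyComplex K] [Field M] [NumberField M] [Algebra K M] [IsGalois K M] (m d s₀ : ℕ)
    (δ : M ≃ₐ[K] M) (ζ : k) (Φ : ℤ_[2][X]) (P : (ZMod 2)[X]), PhiData m ζ Φ P →
    orderOf δ = m → finrank K M = m → finrank ℚ K = 2 * d →
  ∀ S : Set (HeightOneSpectrum (𝓞 M)), S.Finite → (∀ w ∈ S, ∀ v, ConjP K v w → v ∈ S) →
    {w ∈ S | FreeP K w}.ncard = m * s₀ →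
  ∀ F : Finset Mˣ, (∀ x ∈ F, x ∈ S.unit M ∧ Sq (pol P δ x)) →
    (∀ x ∈ F, ∀ y ∈ F, x ≠ y → ¬ Sq (x / y)) → F.card ≤ 2 ^ (P.natDegree * (d + s₀))

/-- **S_BIN.** If `‖τ z - 1‖ ≤ 1/8` for all `τ ∈ T` (`T` finite), then `LocSig L T z`.

PROOF. Newton iteration for `z^(-1/2)`: `y_0 = 1`, `y_{j+1} = y_j (3 - z y_j²)/2 ∈ M`. Put
`e_j = 1 - z y_j²`; then `e_{j+1} = e_j² (3 + e_j)/4`. So for `τ ∈ T`, `‖τ e_0‖ ≤ 1/8` and
`‖τ e_{j+1}‖ ≤ 4 ‖τ e_j‖² ≤ ‖τ e_j‖/2`; thus `‖τ(z y_j²) - 1‖ ≤ 2^(-j-3)`, in particular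
`τ y_j ≠ 0`, `y_j ≠ 0` if `T` is not empty (if `T` is empty there is nothing to prove). If
`‖r - 1‖ ≤ 2^(-n)`, `n ≥ 1`, then `‖r‖ = 1` and `‖L r‖ ≤ 2^(-n)` (each term of the series has norm
`‖r - 1‖^(i+1)/‖i+1‖ ≤ 2^(-n(i+1)) (i+1) ≤ 2^(-n)`). -/
def S_BIN : Prop :=
  ∀ (k : Type) [NormedField k] [NormedAlgebra ℚ_[2] k] [IsUltrametricDist k]
    (L : IwasawaLog 2 k) (M : Type) [Field M] [NumberField M] (T : Set (M →+* k)) (z : Mˣ),
    (∀ τ ∈ T, ‖τ (z : M) - 1‖ ≤ 1 / 8) → LocSig L T z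

/-- **S_LAT** (the `P`-part of a lattice modulo 2). `Λ` is a finitely generated free `ℤ_2`-module with
an endomorphism `D`, `D^m = 1`; `j : Λ → V` is an additive map to a finite dimensional `k`-vector
space with endomorphism `D'`, compatible with the actions and with `ℤ_2 ⊆ k`, and `j(Λ)` spans `V`.
If the `ζ`-eigenspace of `D'` has dimension at least `d`, there are `2^(deg P · d)` elements `x` of
`Λ` with `P(D) x ∈ 2Λ`, pairwise incongruent modulo `2Λ`.

PROOF. Let `r` be the rank of `Λ`, and `c ∈ ℤ_2[X]` the characteristic polynomial of `D`. The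
`k`-linear extension `k ⊗ Λ → V` of `j` is surjective and commutes with `D`, `D'`; the projector
`(1/m) ∑_{i<m} ζ^(-i) D^i` maps onto the `ζ`-eigenspace on both sides (`D'^m = 1` on `V` because
`V` is spanned by `j(Λ)`), so the `ζ`-eigenspace of `D` in `k ⊗ Λ = k^r` has dimension `μ ≥ d`. As
`D^m = 1` and `m ≠ 0` in `k`, `D` is diagonalisable over `k` (`X^m - 1` has `m` distinct roots
`ζ^i`), so `μ` is the multiplicity of `ζ` in `c` (it suffices that `(X - ζ)^μ ∣ c`: dimension of the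
eigenspace `≤` multiplicity). `Φ` is irreducible (it is monic and its reduction `P` is irreducible), it is the minimal
polynomial of `ζ` over `ℤ_2`, and it is separable; so `Φ^μ ∣ c` in `ℤ_2[X]`: induction: if
`c = Φ^i c'` with `i < μ`, `c'(ζ) = 0` since `ζ` is a simple root of `Φ`, so `Φ ∣ c'`. Modulo 2,
`P^μ ∣ c̄ = charpoly D̄`, where `D̄` acts on `Λ/2Λ = F_2^r`. Since `D̄^m = 1` and `X^m - 1` is
squarefree modulo 2, `ker P(D̄)` is the `P`-primary component of `F_2^r`; its dimension is `deg P`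
times the multiplicity of `P` in `c̄`, so it is `≥ deg P · μ ≥ deg P · d`. Take a subspace of
dimension `deg P · d` of `ker P(D̄)` and lift its elements to `Λ`. -/
def S_LAT : Prop :=
  ∀ (k : Type) [NormedField k] [NormedAlgebra ℚ_[2] k] (m : ℕ) (ζ : k) (Φ : ℤ_[2][X])
    (P : (ZMod 2)[X]), PhiData m ζ Φ P →
  ∀ (Λ : Type) [AddCommGroup Λ] [Module ℤ_[2] Λ] [Module.Finite ℤ_[2] Λ] [Module.Free ℤ_[2] Λ]
    (D : Λ →ₗ[ℤ_[2]] Λ), (∀ x, D^[m] x = x) →
  ∀ (V : Type) [AddCommGroup V] [Module k V] [FiniteDimensional k V] (D' : V →ₗ[k] V)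
    (j : Λ →+ V), (∀ x, j (D x) = D' (j x)) →
    (∀ (c : ℤ_[2]) (x : Λ), j (c • x) = algebraMap ℚ_[2] k (c : ℚ_[2]) • j x) →
    Submodule.span k (Set.range j) = ⊤ →
  ∀ d : ℕ, d ≤ finrank k (LinearMap.ker (D' - ζ • LinearMap.id)) →
  ∃ F : Finset Λ, F.card = 2 ^ (P.natDegree * d) ∧
    (∀ x ∈ F, ∃ b, ∑ i ∈ P.support, D^[i] x = (2 : ℤ_[2]) • b) ∧
    ∀ x ∈ F, ∀ y ∈ F, x ≠ y → ¬ ∃ b, x = y + (2 : ℤ_[2]) • b

/-- **S_SIG** (units at the places of `T`). Let `d = |T|`. There are `2^(deg P · d)` elements `x` of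
`Mˣ` which are units at all places above `T`, with `LocSig (P(δ) x)`, and such that no quotient of
two distinct ones satisfies `LocSig`.

PROOF. `T' = above T` is a finite set of `m d` embeddings of `M` in `k`: every embedding of `K` in `k`
has exactly `m = [M : K]` extensions to `M` (there is an embedding of the algebraic closure of `ℚ` in
`k`, so all the embeddings of number fields in `k` factor through it), and
`Gal(M/K) = ⟨δ⟩` permutes them freely: `τ ∘ δ^i = τ` implies `δ^i = 1`.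
Let `V = k^T'` and `D' : V → V`, `(D' f)(τ) = f(τ ∘ δ)`; the `ζ`-eigenspace of `D'` has dimension
`d` (one free choice on each of the `d` orbits of length `m`, `ζ^m = 1`).
Let `X = {x ∈ Mˣ : ‖τ x‖ = 1 for all τ ∈ T'}` and `ℓ : X → V`, `ℓ(x) = (L(τ x))_τ`;
`ℓ(δ x) = D' ℓ(x)`. Let `Λ` be the `ℤ_2`-submodule of `V` spanned by `ℓ(X)`.

(1) `Λ` is finitely generated over `ℤ_2`. Let `W` be the `ℚ_2`-span in `V` of all the vectors
`(τ b)_{τ ∈ T'}`, `b ∈ M`; it is finite dimensional, hence closed in `V`. For `x ∈ X`: there is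
`q ≥ 1`, the same for all `x`, with `‖τ(x^q) - 1‖ ≤ 1/4` for all `τ ∈ T'`: the prime ideals
`𝔓_τ = {b ∈ 𝓞_M : ‖τ b‖ < 1}` contain 2; write `x = α/β` with `α, β ∈ 𝓞_M` outside of all the
`𝔓_τ` (possible because `x` is a unit at these primes: choose `β` by the finiteness of the class group or
by approximation; `IsLocalization` at the complement of the finite union of the `𝔓_τ` also does it);
take for `q` the order of the unit group of the finite ring `𝓞_M/(J)`, `J = ∏ 𝔓^n` over the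
`𝔓_τ` with `n` so large that `J ∋ b` implies `‖τ b‖ ≤ 1/4`.
So `ℓ(x) = (1/q) ℓ(x^q)`, and `ℓ(x^q)` is the limit of the partial sums
`∑_{i ≤ n} (-1)^i (τ(x^q - 1))^(i+1)/(i+1)`, elements of `W`: `ℓ(X) ⊆ W`; and
`‖ℓ(x)‖ ≤ ‖q‖^(-1)` is bounded. So `Λ` is contained in a bounded `ℤ_2`-submodule of the finite
dimensional `ℚ_2`-space `W`, which is contained in a finitely generated one; `ℤ_2` is Noetherian, so
`Λ` is finitely generated, and free (torsion free). It is compact, hence closed in `V`, and so is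
`2Λ`.

(2) `Λ` spans `V` over `k`. Let `b_1, ..., b_{md} ∈ 𝓞_M` be such that the matrix
`(τ b_i)_{τ ∈ T', i}` is invertible (the `[M:ℚ]` embeddings are linearly independent functions on
`𝓞_M`, so the matrix `(τ b)` has rank `|T'|`). For `n` large `1 + 2^n b_i ∈ X` and
`‖L(τ(1 + 2^n b_i)) - 2^n τ b_i‖ ≤ 2^(-2n+1)` (terms `(2^n τ b)^(j+1)/(j+1)`, `j ≥ 1`), so
`det(L(τ(1 + 2^n b_i))) = 2^(n m d) (det(τ b_i) + error)`, error of norm `≤ 2^(-n+1)`: not zero for
`n` large.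

(3) For `x ∈ X`: `LocSig L T' x ↔ ℓ(x) ∈ 2Λ`. If `ℓ(x) = 2 ∑ c_i ℓ(x_i)`, `c_i ∈ ℤ_2`, `x_i ∈ X`,
choose integers `n_i ≡ c_i mod 2^N'`: `ℓ(x (∏ x_i^(-n_i))²) = 2 ∑ (c_i - n_i) ℓ(x_i)` is as small as
we want. Conversely let `y_N ∈ Mˣ` with `SigSmall N (x y_N²)`; `‖τ(y_N)‖² = 1`, so `y_N ∈ X`, and
`ℓ(x) = ℓ(x y_N²) - 2 ℓ(y_N)` is the limit of `-2 ℓ(y_N) ∈ 2Λ`, a closed set. (Same for quotients
`x/y`, `x, y ∈ X`.)

(4) `Λ/2Λ` is the image of `ℓ(X)`: `Λ` is spanned by the group `ℓ(X)`, and modulo 2 the coefficients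
are `0` or `1`.

Apply `S_LAT` (with `j` the inclusion, `D` the restriction of `D'`: `D^m = 1`): there are
`2^(deg P · d)` elements `v` of `Λ`, pairwise incongruent mod `2Λ`, `P(D) v ∈ 2Λ`. By (4) choose
`x ∈ X` with `ℓ(x) ≡ v mod 2Λ`; `ℓ(P(δ) x) = P(D') ℓ(x) ∈ 2Λ`, so by (3) `LocSig (P(δ) x)`, and the
quotients of distinct elements do not satisfy `LocSig`. -/
def S_SIG : Prop :=
  ∀ (k : Type) [NormedField k] [NormedAlgebra ℚ_[2] k] [IsUltrametricDist k] [CompleteSpace k],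
    Nonempty (AlgebraicClosure ℚ →+* k) →
  ∀ (L : IwasawaLog 2 k) (K M : Type) [Field K] [NumberField K]
    [Field M] [NumberField M] [Algebra K M] [IsGalois K M] (m : ℕ)
    (δ : M ≃ₐ[K] M) (ζ : k) (Φ : ℤ_[2][X]) (P : (ZMod 2)[X]), PhiData m ζ Φ P →
    orderOf δ = m → finrank K M = m →
  ∀ T : Set (K →+* k), PlaceClosed T →
  ∃ F : Finset Mˣ, F.card = 2 ^ (P.natDegree * T.ncard) ∧
    (∀ x ∈ F, ∀ τ ∈ (above T : Set (M →+* k)), ‖τ (x : M)‖ = 1) ∧
    (∀ x ∈ F, LocSig L (above T : Set (M →+* k)) (pol P δ x)) ∧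
    ∀ x ∈ F, ∀ y ∈ F, x ≠ y → ¬ LocSig L (above T : Set (M →+* k)) (x / y)

/-- **S_PRM** (permutation modules modulo 2). Let `σ` be a permutation of a finite set `Y` with
`σ^m = 1` and at least `m s₀` points in orbits of length `m`. There are at least `2^(deg P · s₀)` functions
`c : Y → ZMod 2` with `∑_{j ∈ supp P} c(σ^j y) = 0` for all `y`.

PROOF. There are at least `s₀` orbits of length `m`; choose one point in each of `s₀` of them,
`y_1, ..., y_{s₀}`. Let `Q = (X^m - 1)/P ∈ F_2[X]`. For `h` of degree `< deg P` the polynomial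
`h Q` has degree `< m`; write `h Q = ∑_{i<m} q_i X^i`; `P h Q = h (X^m - 1)`, so in
`F_2[X]/(X^m - 1)` the product `P · (∑ q_i X^i)` is zero: `∑_{j ∈ supp P} q_{(i - j) mod m} = 0` for
all `i`. For `(h_1, ..., h_{s₀})` define `c(σ^(-i) y_l) = q_i(h_l)` and `c = 0` on the other orbits.
Then `∑_j c(σ^j σ^(-i) y_l) = ∑_j q_{(i - j) mod m} = 0`. Different `(h_l)` give different `c`, and
there are `2^(deg P · s₀)` of them. -/
def S_PRM : Prop :=
  ∀ (k : Type) [NormedField k] [NormedAlgebra ℚ_[2] k] (m : ℕ) (ζ : k) (Φ : ℤ_[2][X])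
    (P : (ZMod 2)[X]), PhiData m ζ Φ P →
  ∀ (Y : Type) [Finite Y] (σ : Equiv.Perm Y) (s₀ : ℕ), σ ^ m = 1 →
    m * s₀ ≤ {y : Y | ∀ i, 0 < i → i < m → (σ ^ i) y ≠ y}.ncard →
  ∃ F : Finset (Y → ZMod 2), F.card = 2 ^ (P.natDegree * s₀) ∧
    ∀ c ∈ F, ∀ y, ∑ j ∈ P.support, c ((σ ^ j) y) = 0

/-- **S_VAL** (valuations and tame symbols). Let `S` be as in `SSet`, for `a ∈ 𝓞_K`, `a ≠ 0`,
`8 ∣ a - 1`. There is a map `v x w ∈ ZMod 2` (`x ∈ Mˣ`, `w` a prime) such that, for `w ∈ S`: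
it is additive in `x`; it is zero iff the local condition at `w` holds; it is compatible with `δ`;
all the values can be prescribed simultaneously; and an element `x` of norm 1 at the places above
`T` can be changed to `x'`, close to `x` at these places and with `v x' = 0` on `S`.

PROOF. If `ord_w(a)` is even put `v x w = ord_w(x) mod 2`. If `ord_w(a)` is odd put `v x w = 0` if
`Tame w a x` and `v x w = 1` otherwise. Then `w ∤ 2`, because `a` is a unit at the primes above `2`.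
*Additivity* in the second case means: `Tame w a` is a subgroup of index `≤ 2` of `Mˣ`. Subgroup: see
`S_SUB`. Let `x, x'` be not in it. Replacing `x` by `-a x` (`Tame w a (-(a x)) ↔ Tame w a x`, as
`-(a (-(a x))) = a² x`) and multiplying by squares we may suppose `ord_w(x) = ord_w(x') = 0` (the
parity of `ord_w(x)` can be changed as `ord_w(a)` is odd). Then `LocSq w x` fails, so the residue of
`x` modulo `w` is not a square in the finite field `𝓞_M/w` of odd characteristic (if it were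
`x ≡ z²`, take `y = z^(-1)`); same for `x'`; so `x x'` is a square modulo `w`: `LocSq w (x x')`.
(Alternatively one may use only `ord_w` odd: `LocSq w x` for `x` with `ord_w(x) = 0` iff the
residue is a square.)
*Compatibility*: if `w.valuation (δ y) = w'.valuation y` for all `y`, then `v (δ x) w = v x w'`:
apply `δ` to the conditions for `w'`, and use `δ a = a`.
*Prescribed values*: by the Chinese remainder theorem in `𝓞_M` choose `y ∈ 𝓞_M`, `y ≠ 0`, with, for
`w ∈ S`: if `ord_w(a)` is even, `y ≡ π_w mod w²` (`π_w` with `ord_w(π_w) = 1`) or `y ≡ 1 mod w`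
according to the wanted value; if `ord_w(a)` is odd, `y ≡ 1 mod w` (then `LocSq w y`) or
`y ≡ g mod w` with `g` a nonsquare modulo `w` (there is one, the residue characteristic is odd):
then neither `LocSq w y` nor `LocSq w (-(a y))` (odd valuation), so `v y w = 1`.
*Approximation*: let `𝔓_τ = {b ∈ 𝓞_M : ‖τ b‖ < 1}` for `τ ∈ T' = above T`, these are primes of `S`.
Write `x = α/β` with `α, β ∈ 𝓞_M` not in the `𝔓_τ` (`x` is a unit there). Let `n` be such that
`b ∈ 𝔓_τ^n` implies `‖τ b‖ ≤ 1/8`. Choose `x' ∈ 𝓞_M` with `β x' ≡ α mod 𝔓_τ^n` for all `τ ∈ T'`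
and `x' ≡ 1 mod w` for the other `w ∈ S`. Then `‖τ(x'/x) - 1‖ = ‖τ(β x' - α)‖ ≤ 1/8` (as
`‖τ α‖ = ‖τ β‖ = 1`), and `v x' w = 0` for all `w ∈ S`: for `w = 𝔓_τ`, `ord_w(x') = 0` and
`ord_w(a) = 0`. -/
def S_VAL : Prop :=
  ∀ (k : Type) [NormedField k] [NormedAlgebra ℚ_[2] k] [IsUltrametricDist k] (K M : Type)
    [Field K] [NumberField K] [Field M] [NumberField M] [Algebra K M] (δ : M ≃ₐ[K] M)
    (T : Set (K →+* k)) (a : 𝓞 K), a ≠ 0 → (8 : 𝓞 K) ∣ a - 1 →
  ∀ S : Set (HeightOneSpectrum (𝓞 M)), SSet K M (algebraMap K M a) S →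
  ∃ v : Mˣ → HeightOneSpectrum (𝓞 M) → ZMod 2,
    (∀ x y, ∀ w ∈ S, v (x * y) w = v x w + v y w) ∧
    (∀ x, ∀ w ∈ S, (v x w = 0 ↔ if Even (ordv w (algebraMap K M a)) then Even (ordv w (x : M))
      else Tame w (algebraMap K M a) x)) ∧
    (∀ x, ∀ w ∈ S, ∀ w', (∀ y : M, w.valuation M (δ y) = w'.valuation M y) →
      v (Units.map ((δ : M →+* M) : M →* M) x) w = v x w') ∧
    (∀ c : HeightOneSpectrum (𝓞 M) → ZMod 2, ∃ x, ∀ w ∈ S, v x w = c w) ∧
    ∀ x : Mˣ, (∀ τ ∈ (above T : Set (M →+* k)), ‖τ (x : M)‖ = 1) →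
      ∃ x' : Mˣ, (∀ w ∈ S, v x' w = 0) ∧
        ∀ τ ∈ (above T : Set (M →+* k)), ‖τ ((x' / x : Mˣ) : M) - 1‖ ≤ 1 / 8

/-- **S_LOB** (lower bound for the local conditions). There are `2^(deg P (|T| + s₀))` elements `x` of
`Mˣ` with `P(δ) x` in the group `G` of the local conditions, pairwise incongruent modulo `G`.

PROOF. Let `v` be as in `S_VAL`, `F₁` the set of `S_SIG` (`|F₁| = 2^(deg P · |T|)`), `F₂` the set of
`S_PRM` for `Y = S`, `σ` the permutation `w ↦ δ⁻¹ w` of `S` (`(σ w).valuation y =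
w.valuation (δ y)`); a point `w` is in an orbit of length `m` iff `FreeP K w` (`Gal(M/K) = ⟨δ⟩` has
order `m`); `|F₂| = 2^(deg P · s₀)`, and for `c ∈ F₂`, `∑_{j ∈ supp P} c(σ^j w) = 0`.
Let `e ∈ F_2[X]` with `e ≡ 1 mod P`, `e ≡ 0 mod Q`, where `P Q = X^m - 1` (`P`, `Q` are coprime since
`X^m - 1` is squarefree).
The operators satisfy `pol (A B) δ x ≡ pol A δ (pol B δ x)` and
`pol (A + B) δ x ≡ pol A δ x · pol B δ x` modulo squares, and `pol A δ x ≡ pol B δ x` modulo squares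
if `X^m - 1 ∣ A - B`: `Mˣ/squares` is a module over `F_2[X]/(X^m - 1)`.
For `c ∈ F₂` choose `y` with `v y w = c w` on `S` and put `y_c = pol e δ y`. Then
`pol P δ y_c` is a square (`X^m - 1 ∣ P e`), so it is in `G`; and `v(y_c) = e(σ*) c = c` on `S`:
`v(δ^j x) w = v x (σ^j w)`, and `∑_{j ∈ supp e} c(σ^j w) = c(w)` because `e - 1` is a multiple of `P`
and `P` kills `c`.
For `x ∈ F₁` let `x'` be as in `S_VAL`. `x'/x` satisfies `LocSig` by `S_BIN`, and so does
`pol P δ (x'/x)` (`LocSig` for `above T` is a subgroup stable under `δ`, see `S_SUB`), hence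
`pol P δ x'` satisfies `LocSig`; and `v (pol P δ x') = 0` on `S`; so `pol P δ x' ∈ G`.
The elements `x' y_c` (`x ∈ F₁`, `c ∈ F₂`) satisfy `pol P δ (x' y_c) ∈ G`; if the quotient of two of
them, `x' y_c/(x₁' y_{c₁})`, is in `G` then `v` of it vanishes on `S`: `c = c₁`; so `x'/x₁' ∈ G`
satisfies `LocSig`, so does `x/x₁`, and `x = x₁`. -/
def S_LOB : Prop :=
  ∀ (k : Type) [NormedField k] [NormedAlgebra ℚ_[2] k] [IsUltrametricDist k] [CompleteSpace k],
    Nonempty (AlgebraicClosure ℚ →+* k) →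
  ∀ (L : IwasawaLog 2 k) (K M : Type) [Field K] [NumberField K]
    [Field M] [NumberField M] [Algebra K M] [IsGalois K M] (m s₀ : ℕ)
    (δ : M ≃ₐ[K] M) (ζ : k) (Φ : ℤ_[2][X]) (P : (ZMod 2)[X]), PhiData m ζ Φ P →
    orderOf δ = m → finrank K M = m →
  ∀ T : Set (K →+* k), PlaceClosed T → ∀ a : 𝓞 K, a ≠ 0 → (8 : 𝓞 K) ∣ a - 1 →
  ∀ S : Set (HeightOneSpectrum (𝓞 M)), SSet K M (algebraMap K M a) S →
    {w ∈ S | FreeP K w}.ncard = m * s₀ →
  ∃ F : Finset Mˣ, F.card = 2 ^ (P.natDegree * (T.ncard + s₀)) ∧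
    (∀ x ∈ F, LSat L (above T : Set (M →+* k)) S (algebraMap K M a) (pol P δ x)) ∧
    ∀ x ∈ F, ∀ y ∈ F, x ≠ y → ¬ LSat L (above T : Set (M →+* k)) S (algebraMap K M a) (x / y)

/-- **S_LAM** (linear algebra). Let `G ⊆ Mˣ` be a subgroup containing the squares and stable under
`δ`, `U` a subgroup stable under `δ`. Suppose that a set of elements `x ∈ U` with `P(δ) x` a square,
pairwise incongruent modulo squares, has at most `N` elements, that there are `N` elements `x` with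
`P(δ) x ∈ G` pairwise incongruent modulo `G`, and that there is `x₀ ∈ U ∩ G` with `P(δ) x₀` a square
which is not a square. Then there is a homomorphism `λ : Mˣ → {±1}`, not trivial, trivial on `U`, on
`G`, and on all the `P(δ) x`.

PROOF. Let `Mˣ/squares`, a module over `F_2[X]/(X^m - 1)` with `X` acting as `δ` (up to squares
`pol (A B) = pol A ∘ pol B`, `pol (A + B) = pol A · pol B`). Let `B₁` be the space of the classes
modulo squares of the `x ∈ U` with `P(δ) x` a square, `B₂` the space of the classes modulo `G` of the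
`x ∈ Mˣ` with `P(δ) x ∈ G`. `|B₁| ≤ N` (in particular it is finite) and `|B₂| ≥ N`. The natural map
`B₁ → B₂` kills the class of `x₀`, which is not zero, so its image has at most `N/2 < N` elements and
there is `x₁ ∈ Mˣ` with `P(δ) x₁ ∈ G` whose class is not in the image.
Let `G'` be the subgroup generated by `U`, `G` and all the `pol P δ y`. Claim: `x₁ ∉ G'`. Suppose
`x₁ = u g pol P δ y` (`U`, `G` and the image of `pol P δ` are subgroups). Let `e ∈ F_2[X]` with
`e ≡ 1 mod P`, `e ≡ 0 mod (X^m - 1)/P`. Apply `pol e δ`: modulo `G` (which contains the squares and is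
stable under `δ`): `pol e δ x₁ ≡ x₁` because `e - 1 = P (..)` and `P(δ) x₁ ∈ G`;
`pol e δ (pol P δ y) ≡ 1`; `pol e δ g ∈ G`. So `x₁ ≡ pol e δ u mod G`. But
`u' = pol e δ u ∈ U` and `pol P δ u'` is a square. So the class of `x₁` is in the image of `B₁`, a
contradiction.
`Mˣ/G'` is a vector space over `F_2` in which the class of `x₁` is not zero; there is a linear form
which is not zero on it. -/
def S_LAM : Prop :=
  ∀ (K M : Type) [Field K] [Field M] [Algebra K M] (m : ℕ) (δ : M ≃ₐ[K] M) (P : (ZMod 2)[X]),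
    Odd m → δ ^ m = 1 → Irreducible P → P ∣ X ^ m - 1 →
  ∀ (U G : Subgroup Mˣ), (∀ x, Sq x → x ∈ G) →
    (∀ x ∈ G, Units.map ((δ : M →+* M) : M →* M) x ∈ G) →
    (∀ x ∈ U, Units.map ((δ : M →+* M) : M →* M) x ∈ U) →
  ∀ N : ℕ, (∀ F : Finset Mˣ, (∀ x ∈ F, x ∈ U ∧ Sq (pol P δ x)) →
      (∀ x ∈ F, ∀ y ∈ F, x ≠ y → ¬ Sq (x / y)) → F.card ≤ N) →
    (∃ F : Finset Mˣ, F.card = N ∧ (∀ x ∈ F, pol P δ x ∈ G) ∧
      ∀ x ∈ F, ∀ y ∈ F, x ≠ y → x / y ∉ G) →
    (∃ x₀ : Mˣ, x₀ ∈ U ∧ x₀ ∈ G ∧ Sq (pol P δ x₀) ∧ ¬ Sq x₀) →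
  ∃ lam : Mˣ →* ℤˣ, (∀ x ∈ U, lam x = 1) ∧ (∀ x ∈ G, lam x = 1) ∧
    (∀ x, lam (pol P δ x) = 1) ∧ ∃ x, lam x = -1

/-- **S_CHR** (from `λ` to a ray class character). Let `S` be as in `SSet` and such that every divisor
is principal outside `S`, `λ : Mˣ → {±1}` a nontrivial homomorphism, trivial on the `S`-units, on the
elements satisfying the local conditions, and on the `P(δ) x`. There are an ideal `𝔪` and a quadratic
ray class character `ψ` modulo `𝔪` such that: (i) the primes of `S` are not coprime to `𝔪`; (ii) for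
the primes `𝔮 ∉ S`, `ψ(δ^l 𝔮) = ±1` for all `l`, and the product of the `ψ(δ^(l+j) 𝔮)`, `j ∈ supp P`,
is 1; (iii) if `𝔮 ∉ S` has trivial decomposition group, and `x` satisfies the local conditions at `S`
and has even valuation at all primes not in `S` and not conjugate to `𝔮`, then
`∏_{j<m} ψ(δ^j 𝔮)^|ord_𝔮(δ^(-j) x)| = 1`.

PROOF. For a nonzero ideal `I` prime to `S` (not divisible by a prime of `S`) choose `x_I ∈ Mˣ` with
`ord_w(x_I) = ord_w(I)` for `w ∉ S`; `ψ(I) = λ(x_I)` does not depend on the choice because `λ` is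
trivial on the `S`-units; put `ψ(I) = 0` if `I = 0` or `I` is divisible by a prime of `S`. Then `ψ` is
multiplicative. Let `𝔪 = 8 ∏_{w ∈ S} w`; the primes dividing `𝔪` are those of `S`, so `I + 𝔪 = (1)`
iff `I` is prime to `S`. If `α ≠ 0`, `α - 1 ∈ 𝔪`, then `ψ((α)) = λ(α)`; `α` satisfies the local
conditions: `ord_w(α) = 0` for `w ∈ S`; `LocSq w α` with `y = 1`; `LocSig` by `S_BIN` because
`α - 1 ∈ 8 𝓞_M` gives `‖τ α - 1‖ ≤ 1/8`. So `ψ((α)) = 1`. Not trivial: let `λ(x) = -1`; write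
`(x) = J I₁ I₂^{-1}` with `I₁, I₂` integral and prime to `S` and `J` a product of powers of primes of
`S`; then `x x_{I₂}/x_{I₁}` is an `S`-unit, so `ψ(I₁) ψ(I₂) = λ(x) = -1`.
(ii) The ideals `δ^l 𝔮` are prime to `S` (`S` is stable) and one can take `x_{δ^j I} = δ^j(x_I)`; so
the product is `λ(P(δ) x_{δ^l 𝔮}) = 1`.
(iii) `λ(x) = 1`. The primes conjugate to `𝔮` are the `δ^j 𝔮`, `0 ≤ j < m`, distinct, not in `S`, and
`ord_{δ^j 𝔮}(x) = ord_𝔮(δ^(-j) x)`. By the hypothesis and the principality, there is `z ∈ Mˣ` with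
`2 ord_w(z) = ord_w(x)` for the `w ∉ S` not conjugate to `𝔮` and `ord_w(z) = 0` for the conjugates of
`𝔮`. Then `x z^(-2) ∏_{j<m} x_{δ^j 𝔮}^(-ord_{δ^j 𝔮}(x))` is an `S`-unit, so
`1 = λ(x) = ∏_j ψ(δ^j 𝔮)^(ord_{δ^j 𝔮}(x))`, and the signs of the exponents do not matter. -/
def S_CHR : Prop :=
  ∀ (k : Type) [NormedField k] [NormedAlgebra ℚ_[2] k] [IsUltrametricDist k]
    (L : IwasawaLog 2 k) (K M : Type) [Field K] [NumberField K]
    [Field M] [NumberField M] [Algebra K M] [IsGalois K M] (m : ℕ)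
    (δ : M ≃ₐ[K] M) (P : (ZMod 2)[X]), orderOf δ = m → finrank K M = m →
  ∀ T : Set (K →+* k), ∀ a : 𝓞 K, a ≠ 0 → (8 : 𝓞 K) ∣ a - 1 →
  ∀ S : Set (HeightOneSpectrum (𝓞 M)), SSet K M (algebraMap K M a) S →
    (∀ n : HeightOneSpectrum (𝓞 M) →₀ ℤ, ∃ x : Mˣ, ∀ w ∉ S, ordv w (x : M) = n w) →
  ∀ lam : Mˣ →* ℤˣ, (∀ x ∈ S.unit M, lam x = 1) →
    (∀ x, LSat L (above T : Set (M →+* k)) S (algebraMap K M a) x → lam x = 1) →
    (∀ x, lam (pol P δ x) = 1) → (∃ x, lam x = -1) →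
  ∃ (𝔪 : Ideal (𝓞 M)) (ψ : Ideal (𝓞 M) → ℝ), IsPsi 𝔪 ψ ∧
    (∀ w ∈ S, w.asIdeal ⊔ 𝔪 ≠ ⊤) ∧
    (∀ 𝔮 : HeightOneSpectrum (𝓞 M), 𝔮 ∉ S → ∀ l : ℕ,
      (ψ (cj δ l 𝔮.asIdeal) = 1 ∨ ψ (cj δ l 𝔮.asIdeal) = -1) ∧
      ∏ j ∈ P.support, ψ (cj δ (l + j) 𝔮.asIdeal) = 1) ∧
    ∀ 𝔮 : HeightOneSpectrum (𝓞 M), 𝔮 ∉ S → FreeP K 𝔮 → ∀ x : Mˣ,
      LSat L (above T : Set (M →+* k)) S (algebraMap K M a) x →
      (∀ w, w ∉ S → ¬ ConjP K w 𝔮 → Even (ordv w (x : M))) →
      ∏ j ∈ Finset.range m,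
        ψ (cj δ j 𝔮.asIdeal) ^ (ordv 𝔮 (((δ ^ j)⁻¹ : M ≃ₐ[K] M) (x : M))).natAbs = 1

/-- **S_DUAL** (duality). If `Sel(a)` contains an element which is not a square, there are a finite
set `S` of primes, an ideal `𝔪` and a quadratic ray class character `ψ` of `M` modulo `𝔪`, with the
properties (i), (ii) of `S_CHR`, and (iii') if `𝔮 ∉ S` has trivial decomposition group and `x`
satisfies the conditions of `Sel(a)`, except that its valuations at the conjugates of `𝔮` may be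
odd, then `∏_{j<m} ψ(δ^j 𝔮)^|ord_𝔮(δ^(-j) x)| = 1`.

PROOF (from `S_SUB`, `S_SEX`, `S_UPB`, `S_LOB`, `S_LAM`, `S_CHR`). Let `Z` be the finite set of the
primes of `M` above `2` or dividing `a`, `S` the set given by `S_SEX`; `SSet` holds. The set of the
`w ∈ S` with `FreeP K w` is stable under the group `Gal(M/K)` of order `m`, which acts freely on it, so
its cardinality is `m s₀` for some `s₀`. Let `d = T.ncard`. Let `G` be the group of `S_SUB` and
`U = S.unit M` (stable under `δ` because `S` is stable). With `N = 2^(deg P (d + s₀))`, `S_UPB` and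
`S_LOB` give two of the hypotheses of `S_LAM`. Let `x ∈ Sel(a)` be not a square. All its valuations
outside `S` are even, so there is `z ∈ Mˣ` with `2 ord_w(z) = ord_w(x)` for `w ∉ S`, and
`x₀ = x z^(-2) ∈ U`; `x₀ ∈ G` (`x ∈ G` by the definition of `Sel`), `P(δ) x₀` is a square and `x₀` is
not a square. So `S_LAM` applies and gives `λ`; apply `S_CHR`. In (iii'), `x` satisfies `LSat`
(for `w ∈ S`, `w` is not conjugate to `𝔮` because `𝔮 ∉ S` and `S` is stable) and
`ord_w(x)` is even for `w ∉ S` not conjugate to `𝔮` since `ord_w(a)` is even there. -/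
def S_DUAL : Prop :=
  ∀ (k : Type) [NormedField k] [NormedAlgebra ℚ_[2] k] [IsUltrametricDist k] [CompleteSpace k],
    Nonempty (AlgebraicClosure ℚ →+* k) →
  ∀ (L : IwasawaLog 2 k) (K M : Type) [Field K] [NumberField K] [IsTotallyComplex K]
    [Field M] [NumberField M] [Algebra K M] [IsGalois K M] (m : ℕ)
    (δ : M ≃ₐ[K] M) (ζ : k) (Φ : ℤ_[2][X]) (P : (ZMod 2)[X]), PhiData m ζ Φ P →
    orderOf δ = m → finrank K M = m →
  ∀ T : Set (K →+* k), PlaceClosed T → finrank ℚ K = 2 * T.ncard →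
  ∀ a : 𝓞 K, a ≠ 0 → (8 : 𝓞 K) ∣ a - 1 →
    (∃ x : Mˣ, Sel L (above T) P δ (algebraMap K M a) x ∧ ¬ Sq x) →
  ∃ (S : Set (HeightOneSpectrum (𝓞 M))) (𝔪 : Ideal (𝓞 M)) (ψ : Ideal (𝓞 M) → ℝ),
    S.Finite ∧ IsPsi 𝔪 ψ ∧
    (∀ 𝔮 : HeightOneSpectrum (𝓞 M), 𝔮 ∉ S → ∀ l : ℕ,
      (ψ (cj δ l 𝔮.asIdeal) = 1 ∨ ψ (cj δ l 𝔮.asIdeal) = -1) ∧
      ∏ j ∈ P.support, ψ (cj δ (l + j) 𝔮.asIdeal) = 1) ∧
    ∀ 𝔮 : HeightOneSpectrum (𝓞 M), 𝔮 ∉ S → FreeP K 𝔮 → ∀ x : Mˣ,
      (∀ w, Even (ordv w (algebraMap K M a)) → ¬ ConjP K w 𝔮 → Even (ordv w (x : M))) →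
      (∀ w, ¬ Even (ordv w (algebraMap K M a)) → Tame w (algebraMap K M a) x) →
      LocSig L (above T : Set (M →+* k)) x →
      ∏ j ∈ Finset.range m,
        ψ (cj δ j 𝔮.asIdeal) ^ (ordv 𝔮 (((δ ^ j)⁻¹ : M ≃ₐ[K] M) (x : M))).natAbs = 1

/-- **S_STP** (the algebraic step). Let `𝔮` be a prime of `M` and `ψ` a function on ideals with
`ψ(δ^l 𝔮) = ±1`, `ψ(𝔮) = -1` and `∏_{j ∈ supp P} ψ(δ^(l+j) 𝔮) = 1` for all `l`; let `x ∈ Mˣ` with
`P(δ) x` a square, and suppose that, for all `i`,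
`∏_{j<m} ψ(δ^j 𝔮)^|ord_𝔮(δ^(-j) δ^i x)| = 1`. Then `ord_𝔮(δ^i x)` is even for all `i`.

PROOF. Work in `R = F_2[X]/(X^m - 1)`; indices are modulo `m` (`δ^m = 1`). Let
`n(i) = ord_𝔮(δ^(-i) x) mod 2` (the valuation of `x` at `δ^i 𝔮`), `w(i) ∈ F_2` with
`ψ(δ^i 𝔮) = (-1)^w(i)`, `n(X) = ∑_{i<m} n(i) X^i`, `w*(X) = ∑_{i<m} w(i) X^(-i)` in `R`.
(a) `P(X) n(X) = 0`: `P(δ) x = ∏_{j ∈ supp P} δ^j x` is a square, so
`0 = ord_𝔮(δ^(-i) P(δ) x) = ∑_{j ∈ supp P} n(i - j)` for all `i`, which is the coefficient of `X^i` of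
`P n`.
(b) `P(X) w*(X) = 0`: the coefficient of `X^(-l)` is `∑_{j ∈ supp P} w(l + j) = 0`.
(c) `n(X) w*(X) = 0`: the coefficient of `X^(-i)` is `∑_j n(j - i) w(j)`, and
`n(j - i) = ord_𝔮(δ^(-j) δ^i x)`; this is the hypothesis.
Let `X^m - 1 = P Q`, `P` and `Q` coprime (`X^m - 1` is squarefree, `m` odd). Let `n(X)`, `w*(X)` be
represented by polynomials `N, W` of degree `< m`. By (a) `P Q ∣ P N`, so `Q ∣ N`; by (b) `Q ∣ W`; by (c)
`P Q ∣ N W`, and so `P ∣ N` or `P ∣ W` (`P` irreducible). If `P ∣ W`, `P Q ∣ W` and `w* = 0`, but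
`w(0) = 1`. So `P ∣ N`, `N = 0`: all the `n(i)` are zero. -/
def S_STP : Prop :=
  ∀ (K M : Type) [Field K] [Field M] [NumberField M] [Algebra K M] (m : ℕ) (δ : M ≃ₐ[K] M)
    (P : (ZMod 2)[X]), Odd m → δ ^ m = 1 → Irreducible P → P ∣ X ^ m - 1 →
  ∀ (𝔮 : HeightOneSpectrum (𝓞 M)) (ψ : Ideal (𝓞 M) → ℝ),
    (∀ l : ℕ, (ψ (cj δ l 𝔮.asIdeal) = 1 ∨ ψ (cj δ l 𝔮.asIdeal) = -1) ∧
      ∏ j ∈ P.support, ψ (cj δ (l + j) 𝔮.asIdeal) = 1) → ψ 𝔮.asIdeal = -1 →
  ∀ x : Mˣ, Sq (pol P δ x) →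
    (∀ i : ℕ, ∏ j ∈ Finset.range m, ψ (cj δ j 𝔮.asIdeal) ^
      (ordv 𝔮 (((δ ^ j)⁻¹ : M ≃ₐ[K] M) ((δ ^ i : M ≃ₐ[K] M) (x : M)))).natAbs = 1) →
  ∀ i : ℕ, Even (ordv 𝔮 ((δ ^ i : M ≃ₐ[K] M) (x : M)))

end Pool.Agent.Helper38.RS
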