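import Pool.Agent.Helper38.RS.Goals4
import Pool.Agent.Helper10.RS.PHI
import Pool.Agent.Helper12.RS.LA
import Pool.Agent.Helper94.RS.RAT
import Pool.Agent.Helper96.RS.SQR
import Pool.Agent.Helper42.RS.RAM
import Pool.Agent.Helper85.RS.TAM
import Pool.Agent.Helper13.RS.P1
import Pool.Agent.Helper16.RS.SUB
import Pool.Agent.Helper81.RS.SEX
import Pool.Agent.Helper9.RS.EIG
import Pool.Agent.Helper30.RS.LEM
import Pool.Agent.Helper19.RS.UPB
import Pool.Agent.Helper32.RS.LAT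
import Pool.Agent.Helper49.RS.VAL
import Pool.Agent.Helper32.RS.LOB
import Pool.Agent.Helper90.RS.DUAL
import Pool.Agent.Helper51.RS.GFB
import Pool.Agent.Helper79.RS.KEY
import Pool.Agent.Helper17.RS.UNF
import Pool.Agent.Helper59.RS.PSM
import Pool.Agent.Helper88.RS.DG1
import Pool.Agent.Helper84.RS.KUM
import Pool.Agent.Helper99.RS.QEX
import Pool.Agent.Helper46.RS.NFI
import Pool.Agent.Helper83.RS.SLG
import Pool.Agent.Helper46.RS.NFR
import Pool.Agent.Helper95.RS.FIN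
import Pool.Agent.Helper72.RS.CMP
import Pool.Agent.Helper39.RS.INF
import Pool.Agent.Helper86.RS.LAM
import Pool.Agent.Helper10.RS.CHR
import Pool.Agent.Helper48.RS.SIG
import Pool.Agent.Helper35.RS.HIL
import Pool.Agent.Helper35.RS.BIN
import Pool.Agent.Helper56.RS.PRM
import Pool.Agent.Helper15.RS.STP
import Pool.Agent.Helper24.RS.LSM
import Pool.Agent.Helper69.RS.UNI
import Pool.Agent.Helper4.RS.PAR
import Pool.Agent.Helper3.RS.REP
import Pool.Agent.Helper62.RS.LBD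
import Pool.Agent.Helper58.RS.EUL
import Pool.Agent.Helper40.RS.BEX
import Pool.Agent.Helper60.RS.DSC
import Pool.Agent.Helper50.RS.RS
import Pool.Agent.Helper61.RS.ZET
import Pool.Agent.Helper61.RS.HLF
import Pool.Agent.Helper64.RS.SPL

/-! Assembly of project RS: the theorem for `p = 2`. -/

namespace Pool.Agent.Helper38.RS

theorem s_dual : S_DUAL :=
  have lem : S_LEM := Pool.Agent.Helper30.RS.s_lem
  have upb : S_UPB := Pool.Agent.Helper19.RS.s_upb lem Pool.Agent.Helper9.RS.s_eig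
  have sig : S_SIG := Pool.Agent.Helper48.RS.s_sig Pool.Agent.Helper32.RS.s_lat
  have lob : S_LOB := Pool.Agent.Helper32.RS.s_lob Pool.Agent.Helper16.RS.s_sub
    Pool.Agent.Helper35.RS.s_bin sig Pool.Agent.Helper56.RS.s_prm Pool.Agent.Helper49.RS.s_val
  Pool.Agent.Helper90.RS.s_dual Pool.Agent.Helper16.RS.s_sub Pool.Agent.Helper81.RS.s_sex upb lob
    Pool.Agent.Helper86.RS.s_lam (Pool.Agent.Helper10.RS.s_chr Pool.Agent.Helper35.RS.s_bin)

theorem s_gfb : S_GFB := Pool.Agent.Helper51.RS.s_gfb Pool.Agent.Helper24.RS.s_lsm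
  Pool.Agent.Helper69.RS.s_uni

theorem s_unf : S_UNF := Pool.Agent.Helper17.RS.s_unf s_gfb Pool.Agent.Helper58.RS.s_eul

theorem s_par : S_PAR := Pool.Agent.Helper4.RS.s_par Pool.Agent.Helper24.RS.s_lsm s_gfb
  (Pool.Agent.Helper79.RS.s_key s_gfb) s_unf

theorem s_zet : S_ZET := Pool.Agent.Helper61.RS.s_zet Pool.Agent.Helper58.RS.s_eul

theorem s_lbd : S_LBD :=
  Pool.Agent.Helper62.RS.s_lbd s_unf s_par Pool.Agent.Helper3.RS.s_rep s_zet

theorem s_psm : S_PSM :=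
  Pool.Agent.Helper59.RS.s_psm Pool.Agent.Helper58.RS.s_eul s_zet

theorem s_hlf : S_HLF := Pool.Agent.Helper61.RS.s_hlf s_lbd Pool.Agent.Helper58.RS.s_eul s_psm

theorem s_kum : S_KUM := Pool.Agent.Helper84.RS.s_kum s_psm Pool.Agent.Helper64.RS.s_spl

theorem s_p1 : S_P1 :=
  Pool.Agent.Helper13.RS.s_p1 Pool.Agent.Helper12.RS.s_la Pool.Agent.Helper94.RS.s_rat
    (Pool.Agent.Helper35.RS.s_hil Pool.Agent.Helper96.RS.s_sqr Pool.Agent.Helper42.RS.s_ram
      Pool.Agent.Helper85.RS.s_tam)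

theorem s_inf : S_INF :=
  have qex : S_QEX := Pool.Agent.Helper99.RS.s_qex s_hlf Pool.Agent.Helper88.RS.s_dg1 s_kum
  have nfr : S_NFR := Pool.Agent.Helper46.RS.s_nfr
  have cmp : S_CMP := Pool.Agent.Helper72.RS.s_cmp nfr
  have slg : S_SLG := Pool.Agent.Helper83.RS.s_slg
  have bex : S_BEX := Pool.Agent.Helper40.RS.s_bex s_psm s_hlf
  Pool.Agent.Helper39.RS.s_inf bex (Pool.Agent.Helper46.RS.s_nfi s_psm) slg
    Pool.Agent.Helper95.RS.s_fin cmp
    (Pool.Agent.Helper60.RS.s_dsc s_dual Pool.Agent.Helper15.RS.s_stp qex bex slg nfr cmp)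

/-- The theorem for `p = 2`. -/
theorem s_rs : S_RS :=
  Pool.Agent.Helper50.RS.s_rs Pool.Agent.Helper10.RS.s_phi s_p1 s_inf

end Pool.Agent.Helper38.RS
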