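import Pool.Agent.Helper38.RS.Defs

/-!
# Project RS (MP_fc6b1e_nt), part III: analytic number theory

`L(s, ψ)` is bounded for `s → 1+` if `ψ` is a nontrivial quadratic ray class character of a totally
complex field, and the consequences for sets of primes. No class field theory.
-/

namespace Pool.Agent.Helper38.RS

open NumberField Polynomial Module IsDedekindDomain

/-- `|N_{F/ℚ}(α)|` as a real number. -/
noncomputable def absN {F : Type} [Field F] [NumberField F] (α : F) : ℝ :=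
  |((Algebra.norm ℚ α : ℚ) : ℝ)|

/-- `h(α) = |N α|³ / house(α)^(3n)`, homogeneous of degree 0. -/
noncomputable def hf {F : Type} [Field F] [NumberField F] (α : F) : ℝ :=
  absN α ^ 3 / house α ^ (3 * finrank ℚ F)

/-- `G(α) = ∑_ε h(ε α)`, the sum over all the units. -/
noncomputable def Gf {F : Type} [Field F] [NumberField F] (α : F) : ℝ :=
  ∑' ε : (𝓞 F)ˣ, hf ((ε : F) * α)

/-- `g_s(α) = h(α)/G(α) · |N α|^(-s)`; the weights `h/G` sum to `1` over the associates of `α`. -/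
noncomputable def gs {F : Type} [Field F] [NumberField F] (s : ℝ) (α : F) : ℝ :=
  hf α / Gf α * absN α ^ (-s)

/-- `∑_{v ∈ S} N(v)^(-s)`. -/
noncomputable def pz {F : Type} [Field F] [NumberField F] (S : Set (HeightOneSpectrum (𝓞 F)))
    (s : ℝ) : ℝ := ∑' v : S, (Ideal.absNorm v.1.asIdeal : ℝ) ^ (-s)

/-- `L(s, ψ) = ∑_{J ≠ 0} ψ(J) N(J)^(-s)`. -/
noncomputable def Lf {F : Type} [Field F] [NumberField F] (ψ : Ideal (𝓞 F) → ℝ) (s : ℝ) : ℝ :=
  ∑' J : {J : Ideal (𝓞 F) // J ≠ ⊥}, ψ J.1 * (Ideal.absNorm J.1 : ℝ) ^ (-s)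

/-- **S_LSM.** `∑ house(α)^(-r)` over the nonzero algebraic integers of `F` converges for
`r > n = [F : ℚ]`.

PROOF. `house α` is the sup norm of `canonicalEmbedding F α`; the image of `𝓞_F` is a discrete
subgroup `L` of rank `n` (Mathlib: `canonicalEmbedding.integerLattice` or
`mixedEmbedding.integerLattice`; the sup norm of the mixed embedding is also `house α`). Apply
`ZLattice.summable_norm_rpow` with exponent `-r < -n`. -/
def S_LSM : Prop :=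
  ∀ (F : Type) [Field F] [NumberField F] (r : ℝ), (finrank ℚ F : ℝ) < r →
    Summable fun α : {α : 𝓞 F // α ≠ 0} ↦ house ((α.1 : 𝓞 F) : F) ^ (-r)

/-- **S_UNI** (reduction by units). There is `C > 0` such that every `α ∈ Fˣ` has an associate `ε α`
with `house(ε α)^n ≤ C |N α|`.

PROOF. Mathlib: there is a unit `ε` with `ε • mixedEmbedding α` in the fundamental cone
(`mixedEmbedding.fundamentalCone.exists_unit_smul_mem`), multiply by the positive real `t` with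
`t^n |N α| = 1` to get an element of `fundamentalCone` of norm 1, i.e. in `normLeOne`, which is
bounded (`isBounded_normLeOne`); so `t · house(ε α) ≤ C₁` (the norm of the mixed space is the sup
of the absolute values), `house(ε α)^n ≤ C₁^n |N α|`. (Alternatively: directly from the fact that
the unit lattice spans the logarithmic space.) -/
def S_UNI : Prop :=
  ∀ (F : Type) [Field F] [NumberField F], ∃ C : ℝ, 0 < C ∧ ∀ α : F, α ≠ 0 →
    ∃ ε : (𝓞 F)ˣ, house ((ε : F) * α) ^ finrank ℚ F ≤ C * absN α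

/-- **S_GFB** (the function `G`). For `α ≠ 0` the series `G(α)` converges; `G(ε α) = G(α)` for units
`ε`; `G ≥ c > 0`; `h(α) ≤ G(α)`.

PROOF. For `α ≠ 0` and a unit `ε`, `absN (ε α) = absN α` (the norm of a unit is `±1`). Let `q ≥ 1` be
an integer with `q α ∈ 𝓞_F` (`IsLocalization.exist_integer_multiples` or
`exists_integral_multiple`). `house(ε α) = house(ε q α)/q` and the `ε q α` are distinct nonzero
algebraic integers, so `∑_ε house(ε α)^(-3n)` converges by `S_LSM` with `r = 3n > n` (`n ≥ 1`).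
`G(ε α) = G(α)`: reindex the sum. `h(α) ≤ G(α)`: the term `ε = 1`, all terms are `≥ 0`. Lower bound:
choose `ε` by `S_UNI`: `h(ε α) = absN α ^ 3/house(ε α)^(3n) ≥ C^(-3)`. -/
def S_GFB : Prop :=
  ∀ (F : Type) [Field F] [NumberField F],
    (∀ α : F, α ≠ 0 → Summable fun ε : (𝓞 F)ˣ ↦ hf ((ε : F) * α)) ∧
    (∀ α : F, ∀ ε : (𝓞 F)ˣ, Gf ((ε : F) * α) = Gf α) ∧
    (∃ c : ℝ, 0 < c ∧ ∀ α : F, α ≠ 0 → c ≤ Gf α) ∧
    ∀ α : F, α ≠ 0 → 0 < hf α ∧ hf α ≤ Gf α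

/-- **S_KEY** (the key estimate). Let `F` be totally complex, `n = [F : ℚ]`, `v ∈ 𝓞_F`. There is `C`
such that for `s ∈ [1, 2]` and `α ∈ 𝓞_F`, `α ≠ 0`, `α + v ≠ 0`:
`|g_s(α) - g_s(α + v)| ≤ C house(α)^(-(n+1))`.

PROOF. For a place `w` put `t_w = |α|_w`, `t'_w = |α + v|_w`; all the places are complex,
`N = absN α = ∏ t_w²`, `H = house α = max t_w`, `N'`, `H'` for `α' = α + v`, `V = house v`.
`g_s(α) = N^(3-s) H^(-3n)/G(α)`; `N, N' ≥ 1`, `H, H' ≥ 1` (nonzero algebraic integers); by `S_GFB`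
`0 ≤ g_s(α) ≤ N^(-s) ≤ 1` and `G ≥ c`. If `H ≤ 4V + 1`, the difference is `≤ 1 ≤
(4V + 1)^(n+1) H^(-(n+1))`. Suppose `H > 4V + 1`, so `3H/4 ≤ H' ≤ 5H/4`.
CASE 1: some `t_w ≤ 4V`. Then `N ≤ (4V)² H^(n-2)`, `g_s(α) ≤ c^(-1) (4V)^(2(3-s)) H^((n-2)(3-s)-3n)`
and `(n-2)(3-s) - 3n = -sn - 6 + 2s ≤ -(n+1)` because `(s-1) n + 5 - 2s ≥ 0` (`1 ≤ s ≤ 2`); so
`g_s(α) ≤ C H^(-(n+1))`. Same for `α'`: `t'_w ≤ 5V`, `N' ≤ (5V)² H'^(n-2)`.
CASE 2: all `t_w > 4V`. Let `t = min t_w`, `η = V/t < 1/4`. `|t'_w - t_w| ≤ V ≤ η t_w`, so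
`t'_w/t_w ∈ [1-η, 1+η]` for all `w`; the same holds for `ε α`, `ε α'`, `ε` a unit (the ratios
`|ε α'|_w/|ε α|_w` are `t'_w/t_w`), so `house(ε α')/house(ε α) ∈ [1-η, 1+η]` and
`N'/N ∈ [(1-η)^n, (1+η)^n]`. As `1 + η ≤ (1-η)^(-1)`: `h(ε α')/h(ε α) ∈ [q^(-1), q]` with
`q = (1-η)^(-6n)`, so `G(α')/G(α) ∈ [q^(-1), q]`, `h(α')/h(α)` too, and
`(N'/N)^(-s) ∈ [p^(-1), p]`, `p = (1-η)^(-2n)`. So `g_s(α')/g_s(α) ∈ [r^(-1), r]` with
`r = (1-η)^(-14n)` and `|g_s(α') - g_s(α)| ≤ (r - 1) g_s(α) ≤ C_n η g_s(α)` (`η ≤ 1/4`). Finally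
`N ≤ t² H^(n-2)`, `3 - s > 0`, so
`η g_s(α) ≤ V c^(-1) t^(-1) (t² H^(n-2))^(3-s) H^(-3n) = V c^(-1) t^(2(3-s)-1) H^((n-2)(3-s)-3n)`,
`2(3-s) - 1 > 0` and `t ≤ H`: `≤ V c^(-1) H^(n(3-s)-1-3n) = V c^(-1) H^(-ns-1) ≤ V c^(-1) H^(-(n+1))`. -/
def S_KEY : Prop :=
  ∀ (F : Type) [Field F] [NumberField F] [IsTotallyComplex F] (v : 𝓞 F), ∃ C : ℝ,
    ∀ s : ℝ, 1 ≤ s → s ≤ 2 → ∀ α : 𝓞 F, α ≠ 0 → α + v ≠ 0 →
      |gs s (α : F) - gs s ((α + v : 𝓞 F) : F)| ≤ C * house (α : F) ^ (-((finrank ℚ F : ℝ) + 1))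

/-- **S_UNF** (unfolding). For `s > 1`, a function `f` on ideals with `|f| ≤ 1` and an ideal `Λ`:
`∑_{α ∈ Λ, α ≠ 0} f((α)) g_s(α) = ∑_{J ≤ Λ principal, J ≠ 0} f(J) N(J)^(-s)`, and both series converge
absolutely.

PROOF. `∑_{J ≠ 0} N(J)^(-s)` converges for `s > 1` (Mathlib: the Dedekind zeta function converges,
e.g. from `Ideal.tendsto_norm_le_div_atTop₀` and summation by parts, or
`LSeriesSummable`; see `S_EUL`). The map `α ↦ (α)` from the nonzero elements of `Λ` to the nonzero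
principal ideals `≤ Λ` is surjective, and its fibres are the orbits `{ε α : ε unit}`, on which the
units act simply transitively; `absN` is constant on the fibre and equal to the norm of the ideal,
`∑_ε h(ε α)/G(ε α) = ∑_ε h(ε α)/G(α) = 1` by `S_GFB`. All terms `g_s` are nonnegative: sum first
over the fibres (`tsum_sigma`, `Summable.sigma`...). -/
def S_UNF : Prop :=
  ∀ (F : Type) [Field F] [NumberField F] (s : ℝ), 1 < s → ∀ (f : Ideal (𝓞 F) → ℝ),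
    (∀ J, |f J| ≤ 1) → ∀ Λ : Ideal (𝓞 F),
    (Summable fun α : {α : 𝓞 F // α ≠ 0 ∧ α ∈ Λ} ↦ gs s ((α.1 : 𝓞 F) : F)) ∧
    ∑' α : {α : 𝓞 F // α ≠ 0 ∧ α ∈ Λ}, f (Ideal.span {α.1}) * gs s ((α.1 : 𝓞 F) : F) =
      ∑' J : {J : Ideal (𝓞 F) // J ≠ ⊥ ∧ J ≤ Λ ∧ J.IsPrincipal},
        f J.1 * (Ideal.absNorm J.1 : ℝ) ^ (-s)

/-- **S_PAR** (pairing). Let `F` be totally complex, `Λ` a nonzero ideal and `η : 𝓞_F → ℝ` a function
which is periodic modulo `Λ`. There is `C` such that for `s ∈ (1, 2]`: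
`|∑_{α ≠ 0} η(α) g_s(α) - (∑_{ρ ∈ 𝓞_F/Λ} η(ρ)) ∑_{α ∈ Λ, α ≠ 0} g_s(α)| ≤ C`.

PROOF. `𝓞_F/Λ` is finite. Choose representatives `ρ_1, ..., ρ_q`. The sum over `α ≠ 0` is the sum over
`i` of `η(ρ_i) ∑_{β ∈ Λ, β + ρ_i ≠ 0} g_s(β + ρ_i)`. For each `i`,
`|∑_{β ∈ Λ, β + ρ_i ≠ 0} g_s(β + ρ_i) - ∑_{β ∈ Λ, β ≠ 0} g_s(β)|` is at most the sum over the
`β ∈ Λ` with `β ≠ 0`, `β + ρ_i ≠ 0` of `|g_s(β) - g_s(β + ρ_i)| ≤ C_i house(β)^(-(n+1))`
(`S_KEY` with `v = ρ_i`), which is bounded by `S_LSM` (`r = n + 1 > n`), plus at most two more terms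
(`β = 0`, `β = -ρ_i`), which are `≤ 1`: `g_s(α) ≤ absN(α)^(-s) ≤ 1` for nonzero algebraic integers
`α` (`S_GFB`). All series converge absolutely by `S_UNF`. -/
def S_PAR : Prop :=
  ∀ (F : Type) [Field F] [NumberField F] [IsTotallyComplex F] (Λ : Ideal (𝓞 F)), Λ ≠ ⊥ →
  ∀ η : 𝓞 F → ℝ, (∀ α β, β ∈ Λ → η (α + β) = η α) →
  ∃ C : ℝ, ∀ s : ℝ, 1 < s → s ≤ 2 →
    |∑' α : {α : 𝓞 F // α ≠ 0}, η α.1 * gs s ((α.1 : 𝓞 F) : F) -
      (∑ᶠ ρ : 𝓞 F ⧸ Λ, η (Function.surjInv Ideal.Quotient.mk_surjective ρ)) *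
        ∑' α : {α : 𝓞 F // α ≠ 0 ∧ α ∈ Λ}, gs s ((α.1 : 𝓞 F) : F)| ≤ C

/-- **S_REP** (representatives of the ideal classes). For a nonzero ideal `𝔪` there are finitely many
nonzero ideals `c j`, coprime to `𝔪`, such that for every nonzero ideal `J` there is exactly one `j`
with `J c_j` principal.

PROOF. The class group is finite. Every class contains an integral ideal coprime to `𝔪`: for a nonzero
ideal `I` choose, by the Chinese remainder theorem, `x ∈ I` with `x ∉ I 𝔭` for all primes `𝔭 ∣ 𝔪`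
(for each such `𝔭` there is an element of `I ∖ I 𝔭`; combine modulo the `I 𝔭`, i.e. choose
`x_𝔭 ∈ I ∖ I 𝔭` and `y_𝔭 ∈ ∏_{𝔭' ≠ 𝔭} 𝔭'`, `y_𝔭 ∉ 𝔭`, `x = ∑ x_𝔭 y_𝔭`);
`x I^(-1)` is integral, coprime to `𝔪`, in the class of `I^(-1)`. Take one for each class. -/
def S_REP : Prop :=
  ∀ (F : Type) [Field F] [NumberField F] (𝔪 : Ideal (𝓞 F)), 𝔪 ≠ ⊥ →
  ∃ (h : ℕ) (c : Fin h → Ideal (𝓞 F)), (∀ j, c j ≠ ⊥ ∧ c j ⊔ 𝔪 = ⊤) ∧
    ∀ J : Ideal (𝓞 F), J ≠ ⊥ → ∃! j, (J * c j).IsPrincipal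

/-- **S_LBD** (`L(s, ψ)` is bounded). Let `F` be totally complex and `ψ` a nontrivial quadratic ray
class character modulo `𝔪`. There is `C` with `|L(s, ψ)| ≤ C` for `s ∈ (1, 2]`.

PROOF. Let the `c j` be given by `S_REP`. `|ψ| ≤ 1` everywhere, `ψ(c_j) = ±1`, `ψ(⊤) = 1`. For a
nonzero ideal `J` with `J c_j` principal, `J' = J c_j` is a nonzero principal ideal contained in
`c_j`, and `J ↦ J'` is a bijection onto those; `ψ(J') = ψ(J) ψ(c_j)`, `N(J') = N(J) N(c_j)`. So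
`L(s, ψ) = ∑_j ψ(c_j) N(c_j)^s ∑_{J' ≤ c_j principal} ψ(J') N(J')^(-s)
= ∑_j ψ(c_j) N(c_j)^s ∑_{α ≠ 0} η_j(α) g_s(α)` by `S_UNF` (with `Λ = c_j`, `f = ψ`), with
`η_j(α) = ψ((α))` if `α ∈ c_j` and `0` otherwise.

Let `Λ = 𝔪 ∏_j c_j` (nonzero). For nonzero `α, β` with `α - β ∈ 𝔪`: `ψ((α)) = ψ((β))`: if `α` is
not coprime to `𝔪`, neither is `β`, both are `0`. If `α` is coprime to `𝔪` choose `α'` with
`α α' - 1 ∈ 𝔪`, `α' ≠ 0` (add an element of `𝔪` if necessary): `ψ((α α')) = 1 = ψ((β α'))`, and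
`ψ((α')) ≠ 0`. So `η_j` is the restriction to `α ≠ 0` of a function periodic modulo `Λ`: define the
value at `0` as the value at a nonzero element of `Λ`. `S_PAR` gives
`∑_{α ≠ 0} η_j(α) g_s(α) = κ_j X(s) + O(1)`, `X(s) = ∑_{α ∈ Λ, α ≠ 0} g_s(α)`,
`κ_j = ∑_{ρ ∈ 𝓞/Λ} η_j(ρ)`. Let `A = ∑_{ρ ∈ 𝓞/𝔪} η(ρ)`, where `η(ρ) = ψ((α))` for nonzero
`α ∈ ρ`. Since `c_j` is coprime to `𝔪`, `c_j → 𝓞/𝔪` is surjective with kernel
`c_j ∩ 𝔪 = c_j 𝔪 ⊇ Λ`, so `κ_j = [c_j 𝔪 : Λ] A = (N Λ/(N c_j N 𝔪)) A`.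
Hence, with `κ = A N Λ/N 𝔪`, `L(s, ψ) = κ X(s) ∑_j ψ(c_j) N(c_j)^(s-1) + O(1)` for `s ∈ (1, 2]`.

If `A = 0` we are done. If `A ≠ 0`: `η` is a homomorphism `(𝓞/𝔪)ˣ → {±1}` extended by zero, so
`A ≠ 0` implies that it is trivial: `ψ((α)) = 1` for all `α ≠ 0` coprime to `𝔪`. Then
`∑_j ψ(c_j) = 0`: let `I` be an ideal with `ψ(I) = -1` (it is nonzero and coprime to `𝔪`). For each
`j` there is a unique `j' = π(j)` with `I c_j` in the class of `c_{j'}` (let `J` be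
a nonzero ideal coprime to `𝔪` with `J I c_j` principal, `j'` the unique index with `J c_{j'}`
principal); `π` is a permutation, and
`ψ(J) ψ(I) ψ(c_j) = ψ(principal ideal coprime to 𝔪) = 1 = ψ(J) ψ(c_{j'})`, so
`ψ(c_{π(j)}) = -ψ(c_j)`, and the sum is equal to its opposite. (Such a `J`: one of the `c_i`.)
Finally `0 ≤ X(s) ≤ ∑_{J ≠ 0} N(J)^(-s) ≤ C/(s-1)` (`S_UNF` with `f = 1`, and `S_ZET`), and
`|N(c_j)^(s-1) - 1| ≤ C (s - 1)` on `(1, 2]`, so
`κ X(s) ∑_j ψ(c_j) N(c_j)^(s-1) = κ X(s) ∑_j ψ(c_j) (N(c_j)^(s-1) - 1) = O(1)`. -/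
def S_LBD : Prop :=
  ∀ (F : Type) [Field F] [NumberField F] [IsTotallyComplex F] (𝔪 : Ideal (𝓞 F))
    (ψ : Ideal (𝓞 F) → ℝ), IsPsi 𝔪 ψ →
  ∃ C : ℝ, ∀ s : ℝ, 1 < s → s ≤ 2 → |Lf ψ s| ≤ C

/-- **S_EUL** (Euler product). There is `C`, depending only on `F`, such that for every completely
multiplicative `ψ` with `|ψ| ≤ 1`, `ψ(⊤) = 1`, and `s > 1`: the series `L(s, ψ)` converges
absolutely, `L(s, ψ) > 0` and `|log L(s, ψ) - ∑_v ψ(v) N(v)^(-s)| ≤ C`.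

PROOF. Convergence: `∑_{J ≠ 0} N(J)^(-s) < ∞` for `s > 1`: the number of ideals of norm `≤ x` is
`O(x)` (`Ideal.tendsto_norm_le_div_atTop₀`), so by dyadic blocks the sum is
`≤ ∑_i O(2^(i+1)) 2^(-i s)`. Let `a_v = ψ(v) N(v)^(-s)`, `|a_v| ≤ 1/2`. For a finite set `S` of
primes, `∏_{v ∈ S} (1 - a_v)^(-1) = ∑_{J ∈ I(S)} ψ(J) N(J)^(-s)`, where `I(S)` is the set of the
nonzero ideals all of whose prime factors are in `S`: induction on `S` (every `J ∈ I(S ∪ {v})` is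
uniquely `v^i J'`, `J' ∈ I(S)`, `v ∉ S`; Cauchy product, absolutely convergent). When `S` increases to the
set of all primes the right side tends to `L(s, ψ)` (every finite set of ideals is in some
`I(S)`). For `|a| ≤ 1/2`, `|-log(1 - a) - a| ≤ a²`. So
`|log ∏_{v ∈ S} (1 - a_v)^(-1) - ∑_{v ∈ S} a_v| ≤ ∑_v N(v)^(-2) =: C` (finite, by the convergence at
`s = 2`). As `∑_v |a_v| < ∞`, the logarithms of the finite products stay bounded, so the limit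
`L(s, ψ)` is positive, and the inequality passes to the limit. -/
def S_EUL : Prop :=
  ∀ (F : Type) [Field F] [NumberField F], ∃ C : ℝ, ∀ ψ : Ideal (𝓞 F) → ℝ, ψ ⊤ = 1 →
    (∀ I J, ψ (I * J) = ψ I * ψ J) → (∀ I, |ψ I| ≤ 1) → ∀ s : ℝ, 1 < s →
    (Summable fun J : {J : Ideal (𝓞 F) // J ≠ ⊥} ↦ (Ideal.absNorm J.1 : ℝ) ^ (-s)) ∧
    0 < Lf ψ s ∧
    |Real.log (Lf ψ s) - ∑' v : HeightOneSpectrum (𝓞 F),
      ψ v.asIdeal * (Ideal.absNorm v.asIdeal : ℝ) ^ (-s)| ≤ C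

/-- **S_ZET** (the pole). There is `C` with `|log ζ_F(s) - log(1/(s-1))| ≤ C` and
`ζ_F(s) ≤ C/(s-1)` for `s ∈ (1, 2]`, `ζ_F(s) = Lf 1 s`.

PROOF. `ζ_F(s) = dedekindZeta F s` (group the ideals by their norm; real coefficients), and
`(s-1) ζ_F(s)` tends to the residue `> 0` as `s → 1+`
(`tendsto_sub_one_mul_dedekindZeta_nhdsGT`, `dedekindZeta_residue_pos`). So on `(1, 1+ε]` the
function `(s-1) ζ_F(s)` is between two positive constants. On `[1+ε, 2]`: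
`1 ≤ ζ_F(s) ≤ ζ_F(1+ε)` (the series has positive terms, decreasing in `s`, and the term of the unit
ideal is 1). -/
def S_ZET : Prop :=
  ∀ (F : Type) [Field F] [NumberField F], ∃ C : ℝ, ∀ s : ℝ, 1 < s → s ≤ 2 →
    |Real.log (Lf (F := F) (fun _ ↦ 1) s) - Real.log (1 / (s - 1))| ≤ C ∧
    0 < Lf (F := F) (fun _ ↦ 1) s ∧ Lf (F := F) (fun _ ↦ 1) s ≤ C / (s - 1)

/-- **S_PSM.** `|∑_v N(v)^(-s) - log(1/(s-1))| ≤ C` for `s ∈ (1, 2]`.

PROOF. `S_EUL` with `ψ = 1` and `S_ZET`. -/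
def S_PSM : Prop :=
  ∀ (F : Type) [Field F] [NumberField F], ∃ C : ℝ, ∀ s : ℝ, 1 < s → s ≤ 2 →
    |pz (F := F) Set.univ s - Real.log (1 / (s - 1))| ≤ C

/-- **S_HLF** (half of the primes). For `ψ` as in `S_LBD` the primes with `ψ(v) = -1` satisfy
`∑ N(v)^(-s) ≥ (1/2) log(1/(s-1)) - C`.

PROOF. `ψ(⊤) = 1` (`ψ(⊤)² = ψ(⊤)` and `ψ(⊤) = ±1`), `|ψ| ≤ 1`. By `S_EUL` and `S_LBD`,
`∑_v ψ(v) N(v)^(-s) ≤ log L(s, ψ) + C ≤ C'`. With `S_PSM`,
`∑_v (1 - ψ(v)) N(v)^(-s) ≥ log(1/(s-1)) - C''`. The left side is `2 ∑_{ψ(v) = -1} N(v)^(-s)` plus the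
sum over the finitely many `v` with `ψ(v) = 0` (the divisors of `𝔪`), each term `≤ 1`. -/
def S_HLF : Prop :=
  ∀ (F : Type) [Field F] [NumberField F] [IsTotallyComplex F] (𝔪 : Ideal (𝓞 F))
    (ψ : Ideal (𝓞 F) → ℝ), IsPsi 𝔪 ψ →
  ∃ C : ℝ, ∀ s : ℝ, 1 < s → s ≤ 2 →
    1 / 2 * Real.log (1 / (s - 1)) - C ≤ pz {v : HeightOneSpectrum (𝓞 F) | ψ v.asIdeal = -1} s

/-- **S_DG1.** The primes whose norm is not a prime number contribute a bounded sum.

PROOF. If `N(v)` is not prime, `N(v) = ℓ^f` with `f ≥ 2`, `ℓ` prime, so `N(v)^(-s) ≤ ℓ^(-2)`; there are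
at most `[F : ℚ]` primes above each `ℓ`. -/
def S_DG1 : Prop :=
  ∀ (F : Type) [Field F] [NumberField F], ∃ C : ℝ, ∀ s : ℝ, 1 < s → s ≤ 2 →
    pz {v : HeightOneSpectrum (𝓞 F) | ¬ (Ideal.absNorm v.asIdeal).Prime} s ≤ C

/-- **S_SPL** (splitting in a quadratic extension). Let `E/F` be quadratic, `E = F(r)`, `r² = x ∈ F`
(`x` is not a square in `F`), `v` a prime of `F` not above 2 with `LocSq v x`. There are two distinct
primes `w, w'` of `E` above `v` with the same norm as `v`; and for all primes `w` above `v`,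
`LocSq v y` implies `LocSq w y`.

PROOF. Let `σ` be the automorphism with `σ r = -r`. Let `y ∈ F` with `ord_v(x y² - 1) > 0`; so
`y ≠ 0`, `z = r y` satisfies `z² - 1 = x y² - 1`. Let `w` be any prime of `E` above `v`. The valuation of
`(z - 1)(z + 1)` at `w` is positive, and `ord_w(z) = 0`, so one of `z - 1`, `z + 1` has positive
valuation and the other one, which differs from it by `2`, has valuation `0` (`v ∤ 2`). Let `w' = σ(w)`.
If `ord_w(z - 1) > 0` then `ord_{w'}(σ(z - 1)) = ord_{w'}(-(z + 1)) > 0`; as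
`ord_w(z + 1) = 0`, `w' ≠ w`. Similarly in the other case. `∑ e f = 2` over the primes above `v`, so
`e = f = 1` for both and their norms are that of `v`. The last statement: apply the inclusion,
valuations of `F` extend (`ord_w = e ord_v` on `F`). -/
def S_SPL : Prop :=
  ∀ (F E : Type) [Field F] [NumberField F] [Field E] [NumberField E] [Algebra F E] (x : F) (r : E),
    finrank F E = 2 → r ^ 2 = algebraMap F E x → (¬ ∃ y : F, y ^ 2 = x) →
  ∀ v : HeightOneSpectrum (𝓞 F), v.valuation F 2 = 1 → LocSq v x →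
    (∃ w w' : HeightOneSpectrum (𝓞 E), w ≠ w' ∧
      w.asIdeal.comap (algebraMap (𝓞 F) (𝓞 E)) = v.asIdeal ∧
      w'.asIdeal.comap (algebraMap (𝓞 F) (𝓞 E)) = v.asIdeal ∧
      Ideal.absNorm w.asIdeal = Ideal.absNorm v.asIdeal ∧
      Ideal.absNorm w'.asIdeal = Ideal.absNorm v.asIdeal) ∧
    ∀ w : HeightOneSpectrum (𝓞 E), w.asIdeal.comap (algebraMap (𝓞 F) (𝓞 E)) = v.asIdeal →
      w.valuation E 2 = 1 ∧ ∀ y : F, LocSq v y → LocSq w (algebraMap F E y)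

/-- **S_KUM** (a quarter of the primes). If none of `x, y, x y` is a square in `M` (all nonzero), the
primes `v ∤ 2` with `LocSq v x` and `LocSq v y` satisfy `∑ N(v)^(-s) ≤ (1/4) log(1/(s-1)) + C`.

PROOF. Let `M₁ = M(√x)` (`AdjoinRoot (X² - x)`, a quadratic extension). `y` is not a square in `M₁`:
`(α + β √x)² = y` gives `α β = 0`; `β = 0`: `y = α²`; `α = 0`: `y = β² x` and `x y = (β x)²`.
Let `M₂ = M₁(√y)`. By `S_SPL` applied twice, every `v` of the set has two primes of `M₁` above it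
with the same norm and each of these has two primes of `M₂` above it with the same norm; so there are
at least 4 primes of `M₂` above `v` of norm `N(v)`, and the primes of `M₂` above different `v` are
different: `4 ∑ N(v)^(-s) ≤ ∑_{w prime of M₂} N(w)^(-s) ≤ log(1/(s-1)) + C` by `S_PSM` for `M₂`. -/
def S_KUM : Prop :=
  ∀ (M : Type) [Field M] [NumberField M] (x y : M), x ≠ 0 → y ≠ 0 →
    (¬ ∃ z : M, z ^ 2 = x) → (¬ ∃ z : M, z ^ 2 = y) → (¬ ∃ z : M, z ^ 2 = x * y) →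
  ∃ C : ℝ, ∀ s : ℝ, 1 < s → s ≤ 2 →
    pz {v : HeightOneSpectrum (𝓞 M) | v.valuation M 2 = 1 ∧ LocSq v x ∧ LocSq v y} s ≤
      1 / 4 * Real.log (1 / (s - 1)) + C

/-- **S_QEX** (choice of the prime `𝔮`). Let `M/K` be finite Galois, `M` totally complex, `ψ` a
nontrivial quadratic ray class character of `M`, `δ ∈ Gal(M/K)` and `x₀ ∈ Mˣ` such that `x₀` and
`x₀ δ(x₀)` are not squares. For every finite set `Z` of primes there is `𝔮 ∉ Z` with trivial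
decomposition group, `ψ(𝔮) = -1` and such that `x₀` or `δ(x₀)` is not locally a square at `𝔮`.

PROOF. Let `A = {v : ψ(v) = -1}`; by `S_HLF` `pz A s ≥ (1/2) ℓ - C`, `ℓ = log(1/(s-1))`. Let
`B = {v : v ∤ 2, LocSq v x₀, LocSq v (δ x₀)}`: `pz B s ≤ (1/4) ℓ + C` by `S_KUM` (`δ x₀` is not a square
either). Let `D = {v : N(v) not prime}`, `pz D s ≤ C` (`S_DG1`). For each `g ≠ 1` in `Gal(M/K)` choose
`θ_g ∈ 𝓞_M` with `g θ_g ≠ θ_g`, and let `R` be the finite set of the primes dividing `2`, or one of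
the `g θ_g - θ_g`, or in `Z`; `pz R s ≤ |R|`. As `ℓ → ∞` for `s → 1+`, `A` is not contained in
`B ∪ D ∪ R`; let `𝔮 ∈ A` be outside. It has trivial decomposition group: if `g ≠ 1` preserves the
valuation of `𝔮`, then `g` acts on `𝓞_M/𝔮`, a field with a prime number of elements, trivially, so
`g θ_g - θ_g ∈ 𝔮`, i.e. `𝔮 ∈ R`, a contradiction. As `𝔮 ∉ B` and `𝔮 ∤ 2` one of the two is not
locally a square. -/
def S_QEX : Prop :=
  ∀ (K M : Type) [Field K] [NumberField K] [Field M] [NumberField M] [IsTotallyComplex M]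
    [Algebra K M] [IsGalois K M] (𝔪 : Ideal (𝓞 M)) (ψ : Ideal (𝓞 M) → ℝ), IsPsi 𝔪 ψ →
  ∀ (δ : M ≃ₐ[K] M) (x₀ : Mˣ), ¬ Sq x₀ → ¬ Sq (x₀ * Units.map ((δ : M →+* M) : M →* M) x₀) →
  ∀ Z : Set (HeightOneSpectrum (𝓞 M)), Z.Finite →
  ∃ 𝔮 : HeightOneSpectrum (𝓞 M), 𝔮 ∉ Z ∧ FreeP K 𝔮 ∧ ψ 𝔮.asIdeal = -1 ∧
    (¬ LocSq 𝔮 (x₀ : M) ∨ ¬ LocSq 𝔮 (δ (x₀ : M)))

/-- **S_NFI** (primes which are not completely split). If `M/K` is Galois of degree `> 1`, there are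
infinitely many primes of `M` with nontrivial decomposition group.

PROOF. Suppose that all primes of `M` outside of a finite set `Z` have trivial decomposition
group. Let `r` be a prime of `K` which is not below a prime of `Z`. The primes of `M` above `r` are
permuted transitively by `Gal(M/K)`, with trivial stabilisers, so there are `m = [M : K]` of them and
(`∑ e f = m`) they have norm `N(r)`. So `m ∑_r N(r)^(-s) ≤ ∑_w N(w)^(-s)` over these `r` and all `w`;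
by `S_PSM` for `K` and `M`, `m log(1/(s-1)) - C ≤ log(1/(s-1)) + C`, a contradiction for `s → 1+`. -/
def S_NFI : Prop :=
  ∀ (K M : Type) [Field K] [NumberField K] [Field M] [NumberField M] [Algebra K M] [IsGalois K M],
    1 < finrank K M → ∀ Z : Set (HeightOneSpectrum (𝓞 M)), Z.Finite →
  ∃ w : HeightOneSpectrum (𝓞 M), w ∉ Z ∧ ¬ FreeP K w

/-- **S_BEX** (choice of `b`). Let `K` be totally complex and `M/K` Galois of odd degree `m > 1`. Let
`𝔮` be a prime of `M` and `n ∈ 𝓞_K`, `n ≠ 0`, of valuation `0` at `𝔮`. There is `b ∈ 𝓞_K`, `b ≠ 0`,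
`n ∣ b - 1`, of odd valuation at `𝔮`, such that all primes `w` of `M` at which `b` has odd valuation
either have nontrivial decomposition group or are conjugate to `𝔮`.

PROOF. Let `q = 𝔮 ∩ 𝓞_K`. Call a prime `r` of `K` harmless if some prime of `M` above it has
nontrivial decomposition group (then all of them do, as they are conjugate). Let `V` be the `F_2`-vector
space of the finitely supported functions from the set of primes `r ∤ n` of `K` to `F_2`, with basis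
`e_r`; for `β ∈ 𝓞_K`, `β ≠ 0`, `n ∣ β - 1`, let `div(β) = ∑_r ord_r(β) e_r`. Let `N` be the span of
the `e_r`, `r` harmless, `r ≠ q`, and of the `div(β)`. CLAIM: `e_q ∈ N`.
Suppose not; there is a linear form `φ : V → F_2`, zero on `N`, with `φ(e_q) = 1`. Define `ψ(I)` for
ideals of `𝓞_K`: `ψ(I) = (-1)^φ(div I)` if `I ≠ 0` is coprime to `n`, `0` otherwise. Then
`IsPsi (n) ψ` (`ψ(q) = -1`; for `n` a unit the definition is the same, all nonzero ideals being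
coprime to `n`). By `S_HLF`, the primes `r` with `ψ(r) = -1` satisfy
`∑ N(r)^(-s) ≥ (1/2) log(1/(s-1)) - C`. Such an `r ≠ q` is not harmless: all the primes of `M` above it
have trivial decomposition group, so there are `m` of them, of norm `N(r)` (as in `S_NFI`). So
`m ((1/2) log(1/(s-1)) - C - 1) ≤ ∑_w N(w)^(-s) ≤ log(1/(s-1)) + C'` (`S_PSM` for `M`), and `m ≥ 3`: a
contradiction for `s → 1+`.
So `e_q = ∑ e_{r_i} + ∑_j div(β_j)`, finite sums, `r_i ≠ q` harmless. Let `b = ∏ β_j`: `b ≠ 0`,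
`n ∣ b - 1`, and modulo 2 `div(b) = e_q + ∑ e_{r_i}`; so `ord_q(b)` is odd and `ord_r(b)` is even
for `r ≠ q` not harmless. Ramification indices in the Galois extension `M/K` divide `m`, so they
are odd (`Ideal.ncard_primesOver_mul_ramificationIdxIn_mul_inertiaDegIn`), and for a prime `w` of `M`
above `r`, `ord_w(b) = e ord_r(b)` has the parity of `ord_r(b)`. So `ord_𝔮(b)` is odd, and if
`ord_w(b)` is odd then `w` does not divide `n` (`b ≡ 1`), and `r = w ∩ 𝓞_K` is `q`, so `w` is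
conjugate to `𝔮`, or `r` is harmless, so `w` has nontrivial decomposition group. -/
def S_BEX : Prop :=
  ∀ (K M : Type) [Field K] [NumberField K] [IsTotallyComplex K] [Field M] [NumberField M]
    [Algebra K M] [IsGalois K M], Odd (finrank K M) → 1 < finrank K M →
  ∀ (𝔮 : HeightOneSpectrum (𝓞 M)) (n : 𝓞 K), n ≠ 0 →
    ordv 𝔮 (algebraMap K M (n : K)) = 0 →
  ∃ b : 𝓞 K, b ≠ 0 ∧ n ∣ b - 1 ∧ Odd (ordv 𝔮 (algebraMap K M (b : K))) ∧
    ∀ w : HeightOneSpectrum (𝓞 M), Odd (ordv w (algebraMap K M (b : K))) → FreeP K w →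
      ConjP K w 𝔮

end Pool.Agent.Helper38.RS
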