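import Pool.Agent.Helper51.SigLeo.Defs

/-!
# Project RS (MP_fc6b1e_nt): definitions

`K` is a number field, `M/K` is a cyclic extension of odd degree `m` with generator `δ` of the
Galois group, `P` is a polynomial over `ZMod 2`, `k` is the field `ℂ_2` (a complete ultrametric
field over `ℚ_[2]`), `T` is a set of embeddings of `M` in `k`, and `L` is Iwasawa's logarithm.
The twisted Selmer group `Sel` of `a` consists of elements of `Mˣ`, to be regarded modulo squares.
-/

namespace Pool.Agent.Helper38.RS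

open NumberField Polynomial Module IsDedekindDomain Pool.Agent.Helper51.SigLeo

/-- The additive valuation of `x : M` at the prime `v` (equal to `0` at `x = 0`). -/
noncomputable def ordv {M : Type} [Field M] [NumberField M] (v : HeightOneSpectrum (𝓞 M))
    (x : M) : ℤ := -WithZero.log (v.valuation M x)

/-- `x` times the square of an element is congruent to `1` modulo `v`: if `v` does not divide `2`,
this says that `x` is a nonzero square in the completion at `v`. -/
def LocSq {M : Type} [Field M] [NumberField M] (v : HeightOneSpectrum (𝓞 M)) (x : M) : Prop :=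
  ∃ y : M, v.valuation M (x * y ^ 2 - 1) < 1

/-- The tame condition at a prime `v` where `a` has odd valuation (`v` not above `2`): `x` is a norm
from the completion of `M(√a)`, that is `x` or `-a x` is a square in the completion at `v`. -/
def Tame {M : Type} [Field M] [NumberField M] (v : HeightOneSpectrum (𝓞 M)) (a x : M) : Prop :=
  LocSq v x ∨ LocSq v (-(a * x))

section group

variable {K M : Type} [Field K] [Field M] [Algebra K M]

/-- The operator `P(δ)` on `Mˣ`, for a polynomial `P` over `ZMod 2` lifted to a polynomial with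
coefficients `0` and `1`: `x ↦ ∏_{j, coeff P j = 1} δ^j(x)`. -/
noncomputable def pol (P : (ZMod 2)[X]) (δ : M ≃ₐ[K] M) : Mˣ →* Mˣ :=
  ∏ j ∈ P.support, Units.map (((δ ^ j : M ≃ₐ[K] M) : M →+* M) : M →* M)

/-- `x` is a square in `Mˣ`. -/
def Sq {M : Type} [Field M] (x : Mˣ) : Prop := ∃ y : Mˣ, x = y ^ 2

end group

section sigma

variable {k : Type} [NormedField k] {K M : Type} [Field K] [Field M]

/-- All the embeddings in `T` send `x` to a unit whose logarithm has norm at most `2^(-N)`. -/
def SigSmall (L : IwasawaLog 2 k) (T : Set (M →+* k)) (N : ℕ) (x : Mˣ) : Prop :=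
  ∀ τ ∈ T, ‖τ (x : M)‖ = 1 ∧ ‖L.toFun (Units.map (τ : M →* k) x)‖ ≤ (1 / 2 : ℝ) ^ N

/-- The local condition at the primes of `Σ_p`: up to squares the logarithms are arbitrarily
small. -/
def LocSig (L : IwasawaLog 2 k) (T : Set (M →+* k)) (x : Mˣ) : Prop :=
  ∀ N : ℕ, ∃ y : Mˣ, SigSmall L T N (x * y ^ 2)

/-- The embeddings of `M` whose restriction to `K` is in `T`. -/
def above [Algebra K M] (T : Set (K →+* k)) : Set (M →+* k) :=
  {τ | τ.comp (algebraMap K M) ∈ T}

/-- `T` is a union of classes of embeddings which induce the same `2`-adic absolute value. -/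
def PlaceClosed (T : Set (K →+* k)) : Prop :=
  ∀ σ τ : K →+* k, (∀ x : K, ‖σ x‖ = ‖τ x‖) → (σ ∈ T ↔ τ ∈ T)

end sigma

/-- The twisted Selmer group of `a`: the `x` in `Mˣ` such that `P(δ) x` is a square, `x` has even
valuation at all primes where `a` has even valuation, `x` satisfies the tame condition at the
primes where `a` has odd valuation, and the logarithmic condition at the places of `T`. -/
structure Sel {k : Type} [NormedField k] {K M : Type} [Field K] [Field M] [NumberField M]
    [Algebra K M] (L : IwasawaLog 2 k) (T : Set (M →+* k)) (P : (ZMod 2)[X]) (δ : M ≃ₐ[K] M)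
    (a : M) (x : Mˣ) : Prop where
  pol : Sq (pol P δ x)
  even : ∀ v : HeightOneSpectrum (𝓞 M), Even (ordv v a) → Even (ordv v (x : M))
  tame : ∀ v : HeightOneSpectrum (𝓞 M), ¬ Even (ordv v a) → Tame v a x
  sig : LocSig L T x

section primes

variable {K M : Type} [Field K] [Field M] [NumberField M] [Algebra K M]

/-- The primes `w` and `v` are conjugate: `w = g(v)`. -/
def ConjP (K : Type) {M : Type} [Field K] [Field M] [NumberField M] [Algebra K M]
    (w v : HeightOneSpectrum (𝓞 M)) : Prop :=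
  ∃ g : M ≃ₐ[K] M, ∀ y : M, w.valuation M (g y) = v.valuation M y

/-- The decomposition group of `w` in `Gal(M/K)` is trivial. -/
def FreeP (K : Type) {M : Type} [Field K] [Field M] [NumberField M] [Algebra K M]
    (w : HeightOneSpectrum (𝓞 M)) : Prop :=
  ∀ g : M ≃ₐ[K] M, (∀ y : M, w.valuation M (g y) = w.valuation M y) → g = 1

/-- The ideal `δ^j(I)`. -/
noncomputable def cj (δ : M ≃ₐ[K] M) (j : ℕ) (I : Ideal (𝓞 M)) : Ideal (𝓞 M) :=
  I.map (RingOfIntegers.mapRingHom ((δ ^ j : M ≃ₐ[K] M) : M →+* M))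

end primes

/-- `ψ` is a quadratic ray class character modulo the ideal `𝔪` (no condition at the infinite
places), extended by zero, and it is not trivial. -/
structure IsPsi {F : Type} [Field F] [NumberField F] (𝔪 : Ideal (𝓞 F)) (ψ : Ideal (𝓞 F) → ℝ) :
    Prop where
  ne : 𝔪 ≠ ⊥
  zero : ψ ⊥ = 0
  mul : ∀ I J, ψ (I * J) = ψ I * ψ J
  cop : ∀ I, I ≠ ⊥ → I ⊔ 𝔪 = ⊤ → ψ I = 1 ∨ ψ I = -1
  ncop : ∀ I, I ≠ ⊥ → I ⊔ 𝔪 ≠ ⊤ → ψ I = 0
  ray : ∀ α : 𝓞 F, α ≠ 0 → α - 1 ∈ 𝔪 → ψ (Ideal.span {α}) = 1
  nontriv : ∃ I, ψ I = -1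

/-- `P` is the reduction modulo `2` of the minimal polynomial `Φ` over `ℤ_2` of the primitive
`m`-th root of unity `ζ` of `k`, where `m` is odd and `m > 1`. -/
structure PhiData {k : Type} [NormedField k] [NormedAlgebra ℚ_[2] k] (m : ℕ) (ζ : k)
    (Φ : ℤ_[2][X]) (P : (ZMod 2)[X]) : Prop where
  odd : Odd m
  one_lt : 1 < m
  prim : IsPrimitiveRoot ζ m
  monic : Φ.Monic
  dvd : Φ ∣ X ^ m - 1
  root : eval₂ ((algebraMap ℚ_[2] k).comp (algebraMap ℤ_[2] ℚ_[2])) ζ Φ = 0
  map : P = Φ.map PadicInt.toZMod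
  irr : Irreducible P
  two_le : 2 ≤ P.natDegree
  cop : ∀ e : ℕ, 0 < e → e < m → e ∣ m → IsCoprime P (X ^ e - 1)
  dvdP : P ∣ X ^ m - 1

end Pool.Agent.Helper38.RS
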