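import Pool.Agent.Helper38.RS.Defs

/-!
# Project RS (MP_fc6b1e_nt), part I: from a relation between logarithms to a Selmer element

Every statement is a `def ... : Prop` with its complete proof in the docstring.
-/

namespace Pool.Agent.Helper38.RS

open NumberField Polynomial Module IsDedekindDomain TensorProduct Pool.Agent.Helper51.SigLeo

/-- **S_PHI.** Let `m > 1` be odd and let `ζ` be a primitive `m`-th root of unity in an ultrametric
field `k` over `ℚ_2`. Then `PhiData m ζ Φ P` holds for `Φ = minpoly ℤ_2 ζ` and its reduction `P`.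

PROOF. `ζ` is integral over `ℤ_2` (root of `X^m - 1`), so `Φ = minpoly ℤ_[2] ζ` is monic, `Φ(ζ) = 0`
and `Φ ∣ X^m - 1` (`ℤ_2` is integrally closed, `minpoly.isIntegrallyClosed_dvd`). Put `P = Φ mod 2`,
so `P ∣ X^m - 1`. Let `f` be the order of `2` in `(ℤ/m)ˣ`; `f ≥ 2` because `m ∤ 2 - 1`. Let
`E = ℚ_2(ζ) ⊆ k`; it is the splitting field of `X^m - 1`, so it is Galois over `ℚ_2`, and
`deg Φ = [E : ℚ_2] = |Gal(E/ℚ_2)|`.

(a) The residue field. Let `A = {x ∈ E : ‖x‖ ≤ 1}`, `𝔞 = {x ∈ E : ‖x‖ < 1}`, `κ = A/𝔞`, a field of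
characteristic 2. As `∏_{0<i<m} (1 - ζ^i) = m` has norm 1 and all factors have norm `≤ 1`, all the
`1 - ζ^i` (`0 < i < m`) have norm 1, so the image `ζ'` of `ζ` in `κ` has exact order `m`. The
elements `ζ'^(2^i)`, `0 ≤ i < f`, are distinct (as `m ∤ 2^i - 2^j`), `ζ'^(2^f) = ζ'`; the polynomial
`Ψ = ∏_{i<f} (X - ζ'^(2^i))` in `κ[X]` is fixed by the Frobenius of the coefficients, so its
coefficients are in the prime field `F_2`; as the conjugates of `ζ'` over `F_2` include all the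
`ζ'^(2^i)`, `Ψ` is the minimal polynomial of `ζ'` over `F_2` and it is irreducible of degree `f`.

(b) `deg Φ ≤ f`: let `σ ∈ Gal(E/ℚ_2)`. By the uniqueness of the extension of the absolute value of
`ℚ_2` to the finite extension `E` (Mathlib: `spectralNorm`, `spectralNorm_unique` or
`spectralNorm_eq_of_equiv`), `‖σ x‖ = ‖x‖`, so `σ` acts on `κ` and it fixes `F_2` and the coefficients
of `Ψ`. Write `σ ζ = ζ^j`; then `ζ'^j` is a root of `Ψ`, `ζ'^j = ζ'^(2^i)` for some `i < f`,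
`j ≡ 2^i mod m`. `σ` is determined by `j mod m`; hence `|Gal(E/ℚ_2)| ≤ f`.
(ALTERNATIVE for (b): the coefficients of `∏_{i<f} (X - ζ^(2^i))` are in `ℚ_2`: see any proof that
`ℚ_2(ζ)` is unramified of degree `f`.)

(c) `P(ζ') = 0` by reduction of `Φ(ζ) = 0` (the coefficients of `Φ` are in `ℤ_2`, the ring map
`ℤ_2 → κ` factors through `PadicInt.toZMod : ℤ_2 → F_2` because its kernel is the maximal ideal), so
`Ψ ∣ P`, `f ≤ deg P = deg Φ ≤ f`, and both are monic: `P = Ψ` is irreducible of degree `f ≥ 2`.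

(d) If `0 < e < m`, then `P ∤ X^e - 1` because `ζ'^e ≠ 1`; as `P` is irreducible, `P` and `X^e - 1`
are coprime. -/
def S_PHI : Prop :=
  ∀ (k : Type) [NormedField k] [NormedAlgebra ℚ_[2] k] [IsUltrametricDist k] (m : ℕ) (ζ : k),
    Odd m → 1 < m → IsPrimitiveRoot ζ m →
    ∃ (Φ : ℤ_[2][X]) (P : (ZMod 2)[X]), PhiData m ζ Φ P

/-- **S_LA** (linear algebra). Let `A` be a finitely generated abelian group, `δ` an endomorphism with
`δ^m = 1` which fixes the elements of `2`-power order, `f i : A → ℚ_2` finitely many homomorphisms,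
and let `z ∈ k ⊗ A`, `z ≠ 0`, satisfy `δ z = ζ z` and `f i (z) = 0`. Then there is a sequence `u N`
in `A`, constant modulo `2A`, with `u 0 ∉ 2A`, `P(δ) (u 0) ∈ 2A` and `‖f i (u N)‖ ≤ 2^(-N)`.

PROOF. Let `A' = A / torsion`, free of rank `r`; choose a basis. `k ⊗ A = k ⊗ A' = k^r` (the torsion
dies because `k` has characteristic zero; flatness), `δ` acts on `A'` by an integer matrix `D` and
each `f i` factors through a row vector `φ_i ∈ ℚ_2^r` (as `ℚ_2` is torsion free). The vector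
`z ∈ k^r` is not zero and `D z = ζ z`, so `Φ(D) z = Φ(ζ) z = 0`, and `φ_i · z = 0`. So the system of
linear equations `Φ(D) w = 0`, `φ_i · w = 0` with coefficients in the subfield `ℚ_2` of `k` has a
nonzero solution over `k`, hence a nonzero solution `w` over `ℚ_2` (expand the coordinates of `z` in
a `ℚ_2`-basis of `k`, or: the rank of a matrix does not change under extension of the field). After
multiplication by a power of 2 we may suppose `w ∈ ℤ_2^r` with at least one coordinate a unit.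

Since `P` is irreducible of degree `≥ 2`, `P(1) ≠ 0`, so `Φ(1) ∈ ℤ_2` is a unit. Let
`h = 1 - Φ(1)^{-1} Φ ∈ ℤ_2[X]`; `h(1) = 0`, so `h = (X - 1) h₁` with `h₁ ∈ ℤ_2[X]`, and `h(D) w = w`.
Let `2^c ≥ ‖φ_i‖` for all `i` (sup norm of the coordinates). For `N ∈ ℕ` put `N' = N + c + 1`,
choose `t_N ∈ ℤ^r` with `t_N ≡ w mod 2^N'`, a lift `a_N ∈ A` of `t_N`, and `g_N ∈ ℤ[X]` with
`g_N ≡ h₁ mod 2^N'` (coefficientwise); put `h_N = (X - 1) g_N ∈ ℤ[X]` and `u N = h_N(δ)^2 (a_N)`.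
The image of `u N` in `ℤ_2^r` is `≡ h(D)^2 w = w mod 2^N'`, so `f i (u N) = φ_i · (w + 2^N' (..))`
has norm `≤ 2^c 2^(-N') ≤ 2^(-N)`.

Observe: if `τ ∈ A` is a torsion element then `h_N(δ) τ ∈ 2A`: write `τ` as the sum of an element
`τ_2` of 2-power order, which is killed by `δ - 1`, and an element of odd order, which is in `2A`.

Constant mod `2A`: `h_N ≡ h_0 mod 2` coefficientwise (both are `≡ h`), so
`u N ≡ h_0(δ)^2 (a_N) mod 2A`; and `a_N - a_0` is `2b + τ` with `τ` torsion because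
`t_N ≡ w ≡ t_0 mod 2`. So `u N - u 0 ∈ 2A`.
`u 0 ∉ 2A`: its image in `A'/2A'` is `w mod 2 ≠ 0`.
`P(δ)(u 0) ∈ 2A`: let `P~ = ∑_{j ∈ supp P} X^j ∈ ℤ[X]`, `P~ ≡ Φ mod 2`. The image of
`P~(δ) h_0(δ) a_0` in `A'/2A'` is that of `Φ(D) h(D) w = 0`, so `P~(δ) h_0(δ) a_0 = 2b + τ` with `τ`
torsion; apply `h_0(δ)`. -/
def S_LA : Prop :=
  ∀ (k : Type) [NormedField k] [NormedAlgebra ℚ_[2] k] (m : ℕ) (ζ : k) (Φ : ℤ_[2][X])
    (P : (ZMod 2)[X]), PhiData m ζ Φ P →
  ∀ (A : Type) [AddCommGroup A] [Module.Finite ℤ A] (δ : A →+ A),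
    (∀ x, δ^[m] x = x) → (∀ (x : A) (n : ℕ), 2 ^ n • x = 0 → δ x = x) →
  ∀ (ι : Type) [Finite ι] (f : ι → A →+ ℚ_[2]) (z : k ⊗[ℤ] A), z ≠ 0 → extEnd δ z = ζ • z →
    (∀ i, extHom (((algebraMap ℚ_[2] k : ℚ_[2] →+* k) : ℚ_[2] →+ k).comp (f i)) z = 0) →
  ∃ u : ℕ → A, (∀ N, ∃ b, u N = u 0 + 2 • b) ∧ (¬ ∃ b, u 0 = 2 • b) ∧
    (∃ b, ∑ j ∈ P.support, δ^[j] (u 0) = 2 • b) ∧ ∀ N i, ‖f i (u N)‖ ≤ (1 / 2 : ℝ) ^ N

/-- **S_RAT** (rationality of the logarithms). Let `H` be a number field, `T` a place closed set of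
embeddings of `H` in `k`. There are finitely many homomorphisms `f i : 𝓞_Hˣ → ℚ_2` such that the
maps `u ↦ L(τ u)`, `τ ∈ T`, are linear combinations of them with coefficients in `k`, and such that
a vector of `k ⊗ 𝓞_Hˣ` which is killed by all the `L ∘ τ`, `τ ∈ T`, is killed by all the `f i`.

PROOF. `H` has exactly `n = [H : ℚ]` embeddings `τ_1, ..., τ_n` in `k` (there is an embedding of the
algebraic closure of `ℚ` in `k`). Let `b_1, ..., b_n` be an integral basis of `𝓞_H`, and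
`v(b) = (τ_j b)_j ∈ k^n` for `b ∈ H`. The determinant of `(τ_j b_i)` is not zero (its square is the
discriminant), so the `v(b_i)` are linearly independent over `k`. Let `W` be the `ℚ_2`-span of the
`v(b_i)`, equivalently of all the `v(b)`. It is a finite dimensional `ℚ_2`-subspace of `k^n`, so it
is closed, and it is a subring (coordinatewise multiplication) since `v(b) v(b') = v(b b')`.

(1) Let `e ∈ k^n`, `e_j = 1` if `τ_j ∈ T` and `e_j = 0` otherwise. Then `e ∈ W`. For each `j` let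
`𝔓_j = {x ∈ 𝓞_H : ‖τ_j x‖ < 1}`, a prime ideal containing 2 (integral elements have norm `≤ 1`).
If `𝔓_i = 𝔓_j` then `‖τ_i x‖ = ‖τ_j x‖` for all `x ∈ H`: let `π ∈ 𝔓_i ∖ 𝔓_i²`; every `x ≠ 0` of `H`
is `π^a y/y'` with `y, y' ∈ 𝓞_H ∖ 𝔓_i` and `a = ord(x)`, so `‖τ_i x‖ = ‖τ_i π‖^a`; for `x = 2` this
gives `‖τ_i π‖ = (1/2)^(1/ord(2))`, the same number for `i` and `j`. So, as `T` is place closed,
there is a set `R` of primes above 2 with `τ_j ∈ T ↔ 𝔓_j ∈ R`. By the Chinese remainder theorem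
there is for each `N` an `e_N ∈ 𝓞_H` with `e_N ≡ 1 mod 𝔓^N` for `𝔓 ∈ R` and `e_N ≡ 0 mod 𝔓^N` for
the other primes above 2; as `‖τ_j x‖ ≤ ‖τ_j π‖^N` for `x ∈ 𝔓_j^N`, `v(e_N) → e`; `W` is closed.

(2) For `u ∈ 𝓞_Hˣ`, `λ(u) = (L(τ_j u))_j ∈ W`: there is `q > 0` with `u^q ≡ 1 mod 4 𝓞_H` (the unit
group of the finite ring `𝓞_H/4` is finite), so `‖τ_j(u^q) - 1‖ < 1` for all `j` and the partial sums
of the series for `L(τ_j(u^q))` are the coordinates of `v(partial sum) ∈ W`. So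
`q λ(u) = λ(u^q) ∈ W`.

(3) `e λ(u) ∈ W`: write `e λ(u) = ∑ f_i(u) v(b_i)` with `f_i(u) ∈ ℚ_2`; `f_i` is a homomorphism. For
`τ_j ∈ T`, `L(τ_j u) = ∑_i f_i(u) τ_j(b_i)`: this is the second conclusion with `c i = τ_j(b_i)`.
First conclusion: let `z = ∑_l c_l ⊗ u_l` be killed by all `L ∘ τ`, `τ ∈ T`. For every `j`,
`∑_i (∑_l c_l f_i(u_l)) τ_j(b_i) = ∑_l c_l e_j L(τ_j u_l)` is zero (if `τ_j ∈ T` by hypothesis,
otherwise because `e_j = 0`). The matrix `(τ_j b_i)` is invertible, so `∑_l c_l f_i(u_l) = 0` for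
all `i`. -/
def S_RAT : Prop :=
  ∀ (k : Type) [NormedField k] [NormedAlgebra ℚ_[2] k] [IsUltrametricDist k] [CompleteSpace k],
    Nonempty (AlgebraicClosure ℚ →+* k) →
  ∀ (L : IwasawaLog 2 k) (H : Type) [Field H] [NumberField H] (T : Set (H →+* k)), PlaceClosed T →
  ∃ (n : ℕ) (f : Fin n → (Additive (𝓞 H)ˣ →+ ℚ_[2])),
    (∀ z : k ⊗[ℤ] Additive (𝓞 H)ˣ, (∀ τ ∈ T, extHom (logUnits L τ) z = 0) →
      ∀ i, extHom (((algebraMap ℚ_[2] k : ℚ_[2] →+* k) : ℚ_[2] →+ k).comp (f i)) z = 0) ∧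
    ∀ τ ∈ T, ∃ c : Fin n → k, ∀ u, logUnits L τ u = ∑ i, f i u • c i

/-- **S_SQR** (square roots of `a ≡ 1 mod 8`). There is a sequence `s N` in `𝓞_K` with
`2^N ∣ (s N)² - a`, `2^N ∣ s (N+1) - s N`, `4 ∣ s N - 1`.

PROOF. Construct `s N` with `2^(N+3) ∣ (s N)² - a`, `4 ∣ s N - 1`, `2^(N+2) ∣ s (N+1) - s N`: start
from `s 0 = 1`. Given `s = s N` with `s² - a = 2^(N+3) e`, let `s' = s - 2^(N+2) e`; then
`s'² - a = 2^(N+3) e (1 - s) + 2^(2N+4) e²` is divisible by `2^(N+4)` because `4 ∣ 1 - s`, and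
`4 ∣ s' - 1`. -/
def S_SQR : Prop :=
  ∀ (K : Type) [Field K] [NumberField K] (a : 𝓞 K), (8 : 𝓞 K) ∣ a - 1 →
  ∃ s : ℕ → 𝓞 K, (∀ N, (2 : 𝓞 K) ^ N ∣ s N ^ 2 - a) ∧ (∀ N, (2 : 𝓞 K) ^ N ∣ s (N + 1) - s N) ∧
    ∀ N, (4 : 𝓞 K) ∣ s N - 1

/-- **S_RAM** (even valuations). `H/M` is quadratic, `H = M(s)`, `s² = a ∈ 𝓞_K`, `8 ∣ a - 1`, `γ` is
the nontrivial automorphism. If `y ∈ Hˣ` is such that `γ(y)/y` is a unit `u`, then `x = y γ(y) ∈ M`
has even valuation at all the primes `v` of `M` at which `a` has even valuation.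

PROOF. Let `w` be a prime of `H` above `v`, `ord_w = -log` of its valuation, `e ≥ 1` the
ramification index: `ord_w(c) = e ord_v(c)` for `c ∈ M` (Mathlib:
`HeightOneSpectrum.valuation_comap` or `intValuation_comap`). Since `x = u y²` and `ord_w(u) = 0`,
`e ord_v(x) = 2 ord_w(y)`. So it suffices that `e` is odd. Suppose `e` is even; then `ord_w` is even
on `Mˣ`, and there is `y₁ ∈ Hˣ` with `ord_w(y₁) = 1`.

CLAIM: there is `θ ∈ H`, `θ ∉ M`, with conjugate `θ' = γ θ`, such that `ord_w(θ) = 0`,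
`ord_w(θ') ≥ 0`, `ord_w(θ - θ') = 0`.
If `v` does not divide 2: `ord_v(a)` is even; choose `c ∈ Mˣ` with `ord_v(a c²) = 0`, `θ = c s`,
`θ' = -c s`: `ord_w(θ) = 0` since `θ² = a c²`, and `θ - θ' = 2θ`.
If `v` divides 2: `θ = (1 + s)/2`, `θ' = (1 - s)/2`: `θ + θ' = 1`, `θ θ' = (1 - a)/4` is integral, so
both are algebraic integers; `θ - θ' = s` and `ord_w(s) = 0` since `a ≡ 1 mod 8` is a unit at `v`. As
`θ + θ' = 1`, at least one of the two has `ord_w = 0`; exchange them if necessary.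

Write `y₁ = α + β θ` with `α, β ∈ M`. `ord_w(α)` and `ord_w(β θ) = ord_w(β)` are even (or the element
is zero), `ord_w(y₁)` is odd, so (ultrametric inequality) `α, β ≠ 0` and `ord_w(α) = ord_w(β)`. Let
`c = α/β ∈ Mˣ`, `ord_w(c) = 0`, `ord_w(c + θ)` is odd, and it is `≥ 0`, so `> 0`. Then
`c + θ' = (c + θ) - (θ - θ')` has `ord_w(c + θ') = 0`. So `(c + θ)(c + θ')`, which is in `M` (it is
fixed by `γ`), has odd `ord_w`, a contradiction. -/
def S_RAM : Prop :=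
  ∀ (K M H : Type) [Field K] [NumberField K] [Field M] [NumberField M] [Field H] [NumberField H]
    [Algebra K M] [Algebra M H] (a : 𝓞 K) (s : H) (γ : H ≃ₐ[M] H), a ≠ 0 → (8 : 𝓞 K) ∣ a - 1 →
    finrank M H = 2 → s ^ 2 = algebraMap M H (algebraMap K M a) → γ s = -s →
  ∀ (y : Hˣ) (u : (𝓞 H)ˣ) (x : M), γ (y : H) = (u : H) * y → algebraMap M H x = y * γ (y : H) →
  ∀ v : HeightOneSpectrum (𝓞 M), Even (ordv v (algebraMap K M a)) → Even (ordv v x)

/-- **S_TAM** (the tame condition). If `ord_v(a)` is odd and `x = α² - a β²` is not zero, then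
`Tame v a x`.

PROOF. If `β = 0`, `x = α²` and `x (α^{-1})² - 1 = 0`. If `α = 0`, `x = -a β²`,
`-(a x) (a β)^{-2} - 1 = 0`. Otherwise `ord_v(α²)` is even and `ord_v(a β²)` is odd. If
`ord_v(α²) < ord_v(a β²)`, then `x α^{-2} - 1 = -a β² α^{-2}` has positive valuation:
`LocSq v x` with `y = α^{-1}`. If `ord_v(α²) > ord_v(a β²)`, then with `y = (a β)^{-1}`:
`-(a x) y² - 1 = -a (α² - a β²)/(a² β²) - 1 = -α²/(a β²)` has positive valuation. -/
def S_TAM : Prop :=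
  ∀ (M : Type) [Field M] [NumberField M] (v : HeightOneSpectrum (𝓞 M)) (a α β : M),
    ¬ Even (ordv v a) → α ^ 2 - a * β ^ 2 ≠ 0 → Tame v a (α ^ 2 - a * β ^ 2)

/-- The data of part I: `M/K` cyclic of degree `m`, `H = M(s)`, `s² = a ∈ 𝓞_K`, `a ≡ 1 mod 8`,
`Gal(H/K)` contains `γ` (trivial on `M`, `γ s = -s`) and `δ'` (which extends the generator `δ`, and
`δ' s = s`); `T` is a place closed set of embeddings of `K`. -/
structure HData {k : Type} [NormedField k] (K M H : Type) [Field K] [NumberField K]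
    [Field M] [NumberField M] [Field H] [NumberField H] [Algebra K M] [Algebra M H] [Algebra K H]
    (m : ℕ) (δ : M ≃ₐ[K] M) (γ δ' : H ≃ₐ[K] H) (T : Set (K →+* k)) (a : 𝓞 K) (s : H) : Prop where
  order : orderOf δ = m
  deg : finrank K M = m
  degH : finrank M H = 2
  ne : a ≠ 0
  adm : (8 : 𝓞 K) ∣ a - 1
  sq : s ^ 2 = algebraMap K H a
  γs : γ s = -s
  γM : ∀ x : M, γ (algebraMap M H x) = algebraMap M H x
  δs : δ' s = s
  δM : ∀ x : M, δ' (algebraMap M H x) = algebraMap M H (δ x)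
  closed : PlaceClosed T

/-- **S_HIL** (from units to Selmer elements). Let `u N ∈ 𝓞_Hˣ` be a sequence with
`u N · γ(u N) = 1`, constant modulo the squares of elements `b` with `b γ(b) = 1`, such that
`P(δ')(u 0) = b²` with `b γ(b) = 1` and `‖L(τ(u N))‖ ≤ 2^(-N)` for all embeddings `τ` of `H` above
`T`. Then there is `x ∈ Sel(a)` such that, if `x` is a square in `Mˣ`, then `u 0 = t²` with
`t γ(t) = 1`.

PROOF. Put `u = u 0`. There is `y ∈ Hˣ` with `γ(y) = u y`: if `u ≠ -1` take `y = 1 + γ(u)`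
(`= 1 + u^{-1} ≠ 0`, `γ(y) = 1 + u = u y`); if `u = -1` take `y = s` (`s ≠ 0`). The element
`y γ(y) = u y²` is fixed by `γ`, so (as `H = M(s)`, `[H : M] = 2`, an element `α + β s` fixed by `γ`
has `β = 0`) it is the image of some `x ∈ Mˣ`. Claim: `x` is as required.

*pol.* `γ` and `δ'` commute (check on `M` and on `s`; `H = M(s)`). In `H`,
`P(δ)(x) = P(δ')(u) (P(δ') y)² = t²` with `t = b · P(δ')(y)`, and
`γ(t) = b^{-1} P(δ')(u y) = b^{-1} b² P(δ')(y) = t`, so `t ∈ M` and `P(δ) x` is a square in `Mˣ`.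

*Squares.* If `x = w²`, `w ∈ Mˣ`, then `u = (w/y)²`; `t = w/y` is a unit of `𝓞_H` (its square is),
and `t γ(t) = w²/(y γ(y)) = 1`.

*even*: `S_RAM`. *tame*: write `y = α + β s` with `α, β ∈ M`; `x = α² - a β²`; `S_TAM`.

*sig.* Let `N ∈ ℕ`. Let `b_N` with `u N = u (b_N)²`, `b_N γ(b_N) = 1`. Then `x = u y² = (u N) y'²`
with `y' = y/b_N ∈ Hˣ`; write `y' = α + β s`. Let `s_j ∈ 𝓞_K` be the sequence of `S_SQR`. Let `τ` be
an embedding of `M` above `T`. The sequence `τ(s_j)` is Cauchy; its limit `ℓ` satisfies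
`ℓ² = τ(a)`, so `τ` extends to an embedding `τ'` of `H = M(s)` in `k` with `τ'(s) = ℓ` (and `τ'` is
above `T`). As `τ(α + β s_j) → τ'(y') ≠ 0`, for `j` large `α + β s_j ≠ 0` and the quotient
`r_j = τ'(y')/τ(α + β s_j)` satisfies `‖r_j - 1‖ ≤ 2^(-N-1)`. There are finitely many `τ`; choose
one `j` good for all of them, and let `y_M = (α + β s_j)^{-1} ∈ Mˣ`. Then
`τ(x y_M²) = τ'(u N) r_j²`. It has norm 1: `τ'(u N)` is a unit of the ring of integers (both `u N`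
and its inverse are integral, so of norm `≤ 1`), and `‖r_j‖ = 1`. Its logarithm is
`L(τ'(u N)) + 2 L(r_j)`, and `‖L(r_j)‖ ≤ 2^(-N-1)`: if `‖r - 1‖ ≤ 2^(-n)` with `n ≥ 1`, the terms of
the series have norm `‖r - 1‖^(i+1)/‖i + 1‖ ≤ 2^(-n(i+1)) (i + 1) ≤ 2^(-n)`. So the norm of the
logarithm is `≤ 2^(-N)` by the ultrametric inequality. -/
def S_HIL : Prop :=
  ∀ (k : Type) [NormedField k] [NormedAlgebra ℚ_[2] k] [IsUltrametricDist k] [CompleteSpace k]
    (L : IwasawaLog 2 k) (K M H : Type) [Field K] [NumberField K] [Field M] [NumberField M]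
    [Field H] [NumberField H] [Algebra K M] [Algebra M H] [Algebra K H] [IsScalarTower K M H]
    (m : ℕ) (δ : M ≃ₐ[K] M) (γ δ' : H ≃ₐ[K] H) (T : Set (K →+* k)) (a : 𝓞 K) (s : H)
    (P : (ZMod 2)[X]), HData K M H m δ γ δ' T a s →
  ∀ u : ℕ → (𝓞 H)ˣ, (∀ N, (u N : H) * γ (u N : H) = 1) →
    (∀ N, ∃ b : (𝓞 H)ˣ, (b : H) * γ (b : H) = 1 ∧ u N = u 0 * b ^ 2) →
    (∃ b : (𝓞 H)ˣ, (b : H) * γ (b : H) = 1 ∧
      ∏ j ∈ P.support, (δ' ^ j) (u 0 : H) = (b : H) ^ 2) →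
    (∀ N, ∀ τ ∈ (above (above T : Set (M →+* k)) : Set (H →+* k)),
      ‖logUnits L τ (Additive.ofMul (u N))‖ ≤ (1 / 2 : ℝ) ^ N) →
  ∃ x : Mˣ, Sel L (above T) P δ (algebraMap K M a) x ∧
    (Sq x → ∃ t : (𝓞 H)ˣ, (t : H) * γ (t : H) = 1 ∧ u 0 = t ^ 2)

/-- **S_P1** (part I). If all the elements of `Sel(a)` are squares, then a vector `z` of
`k ⊗ 𝓞_Hˣ` with `γ z = -z`, `δ' z = ζ z` which is killed by the logarithms `L ∘ τ`, for all the
embeddings `τ` of `H` above `T`, is zero.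

PROOF (from `S_LA`, `S_RAT`, `S_HIL`). Suppose `z ≠ 0`. Let `U` be the subgroup of the
`u ∈ 𝓞_Hˣ` with `u γ(u) = 1` (as an additive group). `δ'` preserves `U` since it commutes with `γ`,
and `δ'^m = 1` since it is trivial on `M` and `s`. `U` is finitely generated (Dirichlet). The map
`q : u ↦ u/γ(u)` goes from `𝓞_Hˣ` to `U`, and commutes with `δ'`; let `z' ∈ k ⊗ U` be the image of `z`
under `k ⊗ q`. The image of `z'` in `k ⊗ 𝓞_Hˣ` is `z - γ z = 2 z ≠ 0`, so `z' ≠ 0`; `δ' z' = ζ z'`.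
Elements of `U` of 2-power order are fixed by `δ'`: they are roots of unity of 2-power order in `H`,
they form a finite cyclic group `C` of order `2^e` on which `δ'` acts as `x ↦ x^i`, `i` odd, of
`m`-th power `1`; the group `(ℤ/2^e)ˣ` is a 2-group and `m` is odd, so `i = 1`.
Let `n, f` be given by `S_RAT` for `H` and `T' = above (above T)` (place closed: an equality of
norms on `H` gives one on `K`). The restrictions of the `f i` to `U` kill `z'`: the image of `z'` is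
`2 z`, which is killed by the `L ∘ τ`, `τ ∈ T'`. Apply `S_LA` to `A = U`, `δ'` and the `f i`: there
is a sequence `u N` as stated. By the second conclusion of `S_RAT` there is a constant `c` (`T'` is
finite; take the maximum of the norms of the coefficients) with
`‖L(τ(u N))‖ ≤ 2^c 2^(-N)` for all `τ ∈ T'`. Replace the sequence by `N ↦ u (N + c)` for `N ≥ 1`
and keep `u c` as its value at `0` (all the `u N` are congruent modulo squares of elements of `U`,
and `P(δ')(u 0)` is the square of an element of `U`, hence so is `P(δ')(u c)`). All the hypotheses of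
`S_HIL` hold; we get `x ∈ Sel(a)`, a square by hypothesis, so `u c = t²` with `t ∈ U`, contrary to
`¬ ∃ b, u 0 = 2 • b` of `S_LA`. -/
def S_P1 : Prop :=
  ∀ (k : Type) [NormedField k] [NormedAlgebra ℚ_[2] k] [IsUltrametricDist k] [CompleteSpace k],
    Nonempty (AlgebraicClosure ℚ →+* k) →
  ∀ (L : IwasawaLog 2 k) (K M H : Type) [Field K] [NumberField K] [Field M] [NumberField M]
    [Field H] [NumberField H] [Algebra K M] [Algebra M H] [Algebra K H] [IsScalarTower K M H]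
    (m : ℕ) (δ : M ≃ₐ[K] M) (γ δ' : H ≃ₐ[K] H) (T : Set (K →+* k)) (a : 𝓞 K) (s : H)
    (ζ : k) (Φ : ℤ_[2][X]) (P : (ZMod 2)[X]), PhiData m ζ Φ P → HData K M H m δ γ δ' T a s →
    (∀ x : Mˣ, Sel L (above T) P δ (algebraMap K M a) x → Sq x) →
  ∀ z : k ⊗[ℤ] Additive (𝓞 H)ˣ, extEnd (unitsHom γ) z = -z → extEnd (unitsHom δ') z = ζ • z →
    (∀ τ ∈ (above (above T : Set (M →+* k)) : Set (H →+* k)), extHom (logUnits L τ) z = 0) → z = 0

end Pool.Agent.Helper38.RS
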