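import Pool.Agent.Helper38.RS.Goals1
import Pool.Agent.Helper38.RS.Goals2
import Pool.Agent.Helper38.RS.Goals3

/-!
# Project RS (MP_fc6b1e_nt), part IV: descent and the final statement
-/

namespace Pool.Agent.Helper38.RS

open NumberField Polynomial Module IsDedekindDomain TensorProduct Pool.Agent.Helper51.SigLeo

/-- **S_SLG.** `Sel(a)` is a subgroup of `Mˣ` which contains the squares and is stable under `δ`.

PROOF. `pol P δ` is a homomorphism which commutes with `δ`, and sends squares to squares. The other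
conditions: see `S_SUB` (the same proof, for all primes instead of the primes of `S`; squares satisfy
`LocSq` at all primes: `x = z²`, `y = z^(-1)`). -/
def S_SLG : Prop :=
  ∀ (k : Type) [NormedField k] [IsUltrametricDist k] (L : IwasawaLog 2 k) (K M : Type)
    [Field K] [NumberField K] [Field M] [NumberField M] [Algebra K M] (δ : M ≃ₐ[K] M)
    (P : (ZMod 2)[X]) (T : Set (K →+* k)) (a : K), a ≠ 0 →
  ∃ G : Subgroup Mˣ, (∀ x, x ∈ G ↔ Sel L (above T) P δ (algebraMap K M a) x) ∧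
    (∀ x, Sq x → x ∈ G) ∧
    ∀ x ∈ G, Units.map ((δ : M →+* M) : M →* M) x ∈ G

/-- **S_NFR.** If `P(δ) x` is a square and `w` has nontrivial decomposition group, then `ord_w(x)` is
even.

PROOF. `Gal(M/K)` is cyclic of order `m` generated by `δ`, the decomposition group of `w` is generated
by `δ^e` with `0 < e < m`, `e ∣ m`. Let `n(i) = ord_w(δ^i x) mod 2`, `i ∈ ℤ/m`. `n(i + e) = n(i)`
because `δ^e` (and so `δ^(-e)`) preserves the valuation of `w`:
`ord_w(δ^e y) = ord_w(y)`. Since `P(δ) x` is a square, `∑_{j ∈ supp P} n(i + j) = 0` for all `i`. Consider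
the shift operator `S`, `(S n)(i) = n(i + 1)`, on the functions `ℤ/m → F_2`: `P(S) n = 0` and
`(S^e - 1) n = 0`. As `P` and `X^e - 1` are coprime (`PhiData.cop`), `n = 0`. -/
def S_NFR : Prop :=
  ∀ (k : Type) [NormedField k] [NormedAlgebra ℚ_[2] k] (K M : Type) [Field K] [NumberField K]
    [Field M] [NumberField M] [Algebra K M] [IsGalois K M] (m : ℕ)
    (δ : M ≃ₐ[K] M) (ζ : k) (Φ : ℤ_[2][X]) (P : (ZMod 2)[X]), PhiData m ζ Φ P →
    orderOf δ = m → finrank K M = m →
  ∀ (x : Mˣ), Sq (pol P δ x) → ∀ w : HeightOneSpectrum (𝓞 M), ¬ FreeP K w →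
    Even (ordv w (x : M))

/-- **S_FIN.** A set of elements of `Mˣ` with even valuations at all primes, pairwise incongruent
modulo squares, has bounded cardinality.

PROOF. For such `x` the fractional ideal `(x)` is the square of a fractional ideal `I_x`. If the
classes of `I_x` and `I_y` are equal then `I_x = z I_y`, so `x = u z² y` with a unit `u`. So
the number of classes modulo squares is at most (class number) times the order of
`𝓞_Mˣ/squares`, which is finite since `𝓞_Mˣ` is finitely generated. -/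
def S_FIN : Prop :=
  ∀ (M : Type) [Field M] [NumberField M], ∃ n : ℕ, ∀ F : Finset Mˣ,
    (∀ x ∈ F, ∀ w : HeightOneSpectrum (𝓞 M), Even (ordv w (x : M))) →
    (∀ x ∈ F, ∀ y ∈ F, x ≠ y → ¬ Sq (x / y)) → F.card ≤ n

/-- **S_CMP** (comparison of `Sel(ab)` and `Sel(a)`). Let `a, b ∈ 𝓞_K` be nonzero with `8 ∣ a - 1`,
`8 a ∣ b - 1`. Let `x ∈ Sel(ab)`. Suppose that all primes `w` with trivial decomposition group at
which `b` has odd valuation satisfy that `x` has even valuation at `w`. Then `x ∈ Sel(a)`.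

PROOF. Conditions *pol* and *sig* do not involve `a`. Let `w` be a prime of `M`. If `w ∣ 8 a` then
`ord_w(b - 1) > 0`, `ord_w(b) = 0`. If `ord_w(a)` is odd (so `w ∣ a`), `ord_w(ab)` is odd and `x`
satisfies `LocSq w x` or `LocSq w (-(a b x))`; in the second case `-(a b x) y² - 1` has positive
valuation, and so has `-(a x) y² - b^(-1)`, and `b^(-1) - 1`, so `LocSq w (-(a x))`: `Tame w a x`.
If `ord_w(a)` is even: if `ord_w(b)` is even then `ord_w(ab)` is even and so is `ord_w(x)`. If `ord_w(b)`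
is odd then: if `w` has trivial decomposition group, the hypothesis; if not, `S_NFR`. -/
def S_CMP : Prop :=
  ∀ (k : Type) [NormedField k] [NormedAlgebra ℚ_[2] k] [IsUltrametricDist k]
    (L : IwasawaLog 2 k) (K M : Type) [Field K] [NumberField K]
    [Field M] [NumberField M] [Algebra K M] [IsGalois K M] (m : ℕ)
    (δ : M ≃ₐ[K] M) (ζ : k) (Φ : ℤ_[2][X]) (P : (ZMod 2)[X]), PhiData m ζ Φ P →
    orderOf δ = m → finrank K M = m →
  ∀ (T : Set (K →+* k)) (a b : 𝓞 K), a ≠ 0 → (8 : 𝓞 K) ∣ a - 1 → b ≠ 0 → 8 * a ∣ b - 1 →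
  ∀ x : Mˣ, Sel L (above T) P δ (algebraMap K M ((a * b : 𝓞 K) : K)) x →
    (∀ w, Odd (ordv w (algebraMap K M (b : K))) → FreeP K w → Even (ordv w (x : M))) →
    Sel L (above T) P δ (algebraMap K M (a : K)) x

/-- **S_DSC** (descent). If `Sel(a)` contains an element which is not a square, there is `b ∈ 𝓞_K`,
`b ≠ 0`, `8 ∣ b - 1`, with `Sel(ab) ⊆ Sel(a)` and `Sel(ab) ≠ Sel(a)`.

PROOF (from `S_DUAL`, `S_QEX`, `S_BEX`, `S_STP`, `S_CMP`, `S_SLG`). Let `x₀ ∈ Sel(a)` be not a
square. `x₀ δ(x₀)` is not a square: in the `F_2[X]`-module `Mˣ/squares` (`X` acts as `δ`) the class of `x₀` is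
killed by `P`; if it were killed by `X + 1 = X - 1` it would be zero because `P` and `X - 1` are coprime
(`PhiData.cop`, `e = 1 < m`). Let `S, 𝔪, ψ` be given by `S_DUAL`, `Z` the union of `S` and of the primes
dividing `2a`. By `S_QEX` (`M` is totally complex because `K` is) there is `𝔮 ∉ Z`, `FreeP K 𝔮`,
`ψ(𝔮) = -1`, and `x₁ = x₀` or `x₁ = δ x₀` with `¬ LocSq 𝔮 x₁`; `x₁ ∈ Sel(a)` by `S_SLG`. By `S_BEX` with
`n = 8a` there is `b`, `8a ∣ b - 1`, `ord_𝔮(b)` odd, and all `w` with trivial decomposition group and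
`ord_w(b)` odd are conjugate to `𝔮`.

`Sel(ab) ⊆ Sel(a)`: let `x ∈ Sel(ab)`. By `S_CMP` we must see that `ord_w(x)` is even for the `w`
conjugate to `𝔮`. All the elements `x' = δ^i x` are in `Sel(ab)` (`S_SLG`) and they satisfy the
hypotheses of the last statement of `S_DUAL`: if `ord_w(a)` is even and `w` is not conjugate to `𝔮`
then `ord_w(x')` is even (as in the proof of `S_CMP`: clear if `ord_w(b)` is even; if `ord_w(b)` is
odd then `w` has nontrivial decomposition group, `S_NFR`); the tame condition for `a` follows from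
that for `ab` as in `S_CMP`; `LocSig` is clear. So the hypotheses of `S_STP` hold (`cj δ 0 𝔮 = 𝔮`)
and `ord_𝔮(δ^i x)` is even for all `i`. If `w` is conjugate to `𝔮`, `w.valuation (g y) =
𝔮.valuation y`, `g^(-1) = δ^i`, then `ord_w(x) = ord_𝔮(δ^i x)` is even.

`x₁ ∉ Sel(ab)`: `ord_𝔮(a) = 0`, so `ord_𝔮(ab)` is odd, and `ord_𝔮(x₁)` is even since `x₁ ∈ Sel(a)`. If
`x₁ ∈ Sel(ab)`, then `LocSq 𝔮 x₁`, which is false, or `LocSq 𝔮 (-(a b x₁))`, impossible because
`ord_𝔮(a b x₁)` is odd (`z y² ≡ 1` implies `ord(z)` even). -/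
def S_DSC : Prop :=
  ∀ (k : Type) [NormedField k] [NormedAlgebra ℚ_[2] k] [IsUltrametricDist k] [CompleteSpace k],
    Nonempty (AlgebraicClosure ℚ →+* k) →
  ∀ (L : IwasawaLog 2 k) (K M : Type) [Field K] [NumberField K] [IsTotallyComplex K]
    [Field M] [NumberField M] [Algebra K M] [IsGalois K M] (m : ℕ)
    (δ : M ≃ₐ[K] M) (ζ : k) (Φ : ℤ_[2][X]) (P : (ZMod 2)[X]), PhiData m ζ Φ P →
    orderOf δ = m → finrank K M = m →
  ∀ T : Set (K →+* k), PlaceClosed T → finrank ℚ K = 2 * T.ncard →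
  ∀ a : 𝓞 K, a ≠ 0 → (8 : 𝓞 K) ∣ a - 1 →
    (∃ x : Mˣ, Sel L (above T) P δ (algebraMap K M (a : K)) x ∧ ¬ Sq x) →
  ∃ b : 𝓞 K, b ≠ 0 ∧ (8 : 𝓞 K) ∣ b - 1 ∧
    (∀ x : Mˣ, Sel L (above T) P δ (algebraMap K M ((a * b : 𝓞 K) : K)) x →
      Sel L (above T) P δ (algebraMap K M (a : K)) x) ∧
    ∃ x : Mˣ, Sel L (above T) P δ (algebraMap K M (a : K)) x ∧
      ¬ Sel L (above T) P δ (algebraMap K M ((a * b : 𝓞 K) : K)) x

/-- **S_INF** (infinitely many `a` with trivial Selmer group). For every finite set `Z` of primes of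
`M` there is `a ∈ 𝓞_K`, `a ≠ 0`, `8 ∣ a - 1`, such that all elements of `Sel(a)` are squares and `a`
has odd valuation at some prime `w ∉ Z`.

PROOF (from `S_DSC`, `S_FIN`, `S_SLG`, `S_NFI`, `S_BEX`, `S_CMP`). (1) There is one `a` (`≠ 0`,
`8 ∣ a - 1`) with `Sel(a)` consisting of squares: start from `a = 1`; all elements of `Sel(1)` have
even valuations, so by `S_FIN` `Sel(1)/squares` is finite (`≤ n` elements). `S_DSC` replaces `a` by
`ab` with `Sel(ab)` strictly smaller; the groups contain the squares, so the finite cardinality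
of `Sel(a)/squares` decreases strictly. After finitely many steps all elements are squares.
(2) Let `a` be as in (1). By `S_NFI` (`m > 1`) there is a prime `w` of `M` with nontrivial
decomposition group, not in `Z` and not dividing `8a`. `S_BEX` with `𝔮 = w`, `n = 8a` gives `b`,
`8a ∣ b - 1`, `ord_w(b)` odd, and every prime `w'` with trivial decomposition group and `ord_{w'}(b)`
odd would be conjugate to `w`, so it would have nontrivial decomposition group: there is none. By
`S_CMP` `Sel(ab) ⊆ Sel(a)`, so it consists of squares; `ord_w(ab) = ord_w(b)` is odd; and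
`8 ∣ ab - 1`. -/
def S_INF : Prop :=
  ∀ (k : Type) [NormedField k] [NormedAlgebra ℚ_[2] k] [IsUltrametricDist k] [CompleteSpace k],
    Nonempty (AlgebraicClosure ℚ →+* k) →
  ∀ (L : IwasawaLog 2 k) (K M : Type) [Field K] [NumberField K] [IsTotallyComplex K]
    [Field M] [NumberField M] [Algebra K M] [IsGalois K M] (m : ℕ)
    (δ : M ≃ₐ[K] M) (ζ : k) (Φ : ℤ_[2][X]) (P : (ZMod 2)[X]), PhiData m ζ Φ P →
    orderOf δ = m → finrank K M = m →
  ∀ T : Set (K →+* k), PlaceClosed T → finrank ℚ K = 2 * T.ncard →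
  ∀ Z : Set (HeightOneSpectrum (𝓞 M)), Z.Finite →
  ∃ a : 𝓞 K, a ≠ 0 ∧ (8 : 𝓞 K) ∣ a - 1 ∧
    (∀ x : Mˣ, Sel L (above T) P δ (algebraMap K M (a : K)) x → Sq x) ∧
    ∃ w : HeightOneSpectrum (𝓞 M), w ∉ Z ∧ ¬ Even (ordv w (algebraMap K M (a : K)))

/-- The `Σ`-Leopoldt statement for `χ = χ₀ φ_N`: `H = MN`, `χ` is any injective character of
`Gal(H/K)` such that `χ(h)² = χ₀(g)²` if `h` extends `g ∈ Gal(M/K)` (for `N/K` quadratic and `M/K`
of odd degree there is exactly one, the product of `χ₀` and the quadratic character of `N`), `L` is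
Iwasawa's logarithm. -/
def TwistGood {K Ω k : Type} [Field K] [Field Ω] [Algebra K Ω] [NormedField k]
    (ιinf : Ω →+* ℂ) (ιp : Ω →+* k) (L : IwasawaLog 2 k) (S : Set (K →+* ℂ))
    (M : IntermediateField K Ω) (χ₀ : (M ≃ₐ[K] M) →* kˣ) (N : IntermediateField K Ω) : Prop :=
  ∀ H : IntermediateField K Ω, H = M ⊔ N → ∀ (χ : (H ≃ₐ[K] H) →* kˣ), Function.Injective χ →
    (∀ (h : H ≃ₐ[K] H) (g : M ≃ₐ[K] M),
      (∀ (x : M) (y : H), (y : Ω) = (x : Ω) → ((h y : H) : Ω) = ((g x : M) : Ω)) →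
      χ h ^ 2 = χ₀ g ^ 2) →
    InjectiveOn (finrank K H) χ unitsHom (logSigma ιinf ιp S L)

/-- **S_RS** (the theorem). Let `K` be a number field, `S` a CM type of `K` which is `2`-ordinary for
`ι_∞`, `ι_p`, `χ₀` a character of odd order `m > 1` of `K`, cutting out `M`. There are infinitely many
quadratic extensions `N` of `K` such that the `Σ`-Leopoldt statement holds for `χ₀ φ_N`.

PROOF (from `S_PHI`, `S_INF`, `S_P1`). Let `Ω = AlgebraicClosure K`, `k = ℂ_[2]` (algebraically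
closed and complete, `Nonempty (AlgebraicClosure ℚ →+* k)`).

*K is totally complex*: an embedding `φ : K → ℂ` equal to its conjugate contradicts `IsCMType`.

*T*. `σ ↦ ιinf ∘ σ` and `σ ↦ ιp ∘ σ` are bijections from the set of the embeddings `K → Ω` to those of
`K → ℂ`, resp. `K → k` (injective, and all three sets have `[K : ℚ]` elements, `Ω`, `ℂ`, `k` being
algebraically closed of characteristic 0). Let `T = {ιp ∘ σ : ιinf ∘ σ ∈ S}`. `2 |T| = 2 |S| = [K : ℚ]` since
`S` contains exactly one embedding of each conjugate pair. `PlaceClosed T` is the hypothesis.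

*M*. `Gal(M/K)` embeds in `kˣ`, it is cyclic; let `δ` be a generator, `m = [M : K]`, `ζ = χ₀(δ)`, a
primitive `m`-th root of unity; `S_PHI` gives `PhiData m ζ Φ P`.

*Infinitely many N*. Suppose that the set of the good `N` is contained in a finite set `𝒩` of
quadratic extensions. Every `N ∈ 𝒩` is `K(√a_N)` with `a_N ∈ Kˣ`. Let `Z` be the finite set of the primes
`w` of `M` such that `ord_w(a_N)` is not even for some `N ∈ 𝒩`. Let `a`, `w` be given by `S_INF`
`r ∈ Ω` with `r² = a`, `N = K(r)`. `a` is not a square in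
`K`, even in `M`, because `ord_w(a)` is not even. So `[N : K] = 2`. `N ∉ 𝒩`: otherwise
`K(√a) = K(√a_N)`, `a = c² a_N` with `c ∈ K` (as `√a = α + β √a_N` gives `2 α β = 0`, and `β = 0` is
impossible), `ord_w(a) - ord_w(a_N)` is even, and `w ∉ Z`, a contradiction. We show that `N` is good.

*N is good.* Let `H = M ⊔ N` and `χ` be as in `TwistGood`. `H = M(r)`, `[H : M] = 2`,
`[H : K] = 2m`, and `H/K` is Galois (compositum). Since `[M : K]` is odd and `[N : K] = 2`, `M` and `N`
are linearly disjoint, there are `γ, δ' ∈ Gal(H/K)` with `γ` trivial on `M`, `γ r = -r`, `δ'`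
extending `δ`, `δ' r = r`: `HData` holds. `γ² = 1`, `γ ≠ 1`, so `χ(γ) = -1`. `δ'^m = 1`, `χ(δ')^m = 1`
and `χ(δ')² = χ₀(δ)² = ζ²`, so `χ(δ') = χ(δ')^(m+1) = ζ^(m+1) = ζ` (`m + 1` is even). Let
`x ∈ k ⊗ 𝓞_Hˣ` and `z = eChi x`, suppose that all `ℓ ∈ logSigma` kill `z`. `γ z = χ(γ) z = -z`,
`δ' z = ζ z` (reindex the sum defining `eChi`; `[H : K] = |Gal(H/K)|`). If `τ : H → k` is in
`above (above T)`, its values are algebraic over `ℚ`, so `τ = ιp ∘ σ` with `σ : H → Ω`, and
`ιp ∘ σ|_K ∈ T` gives `ιinf ∘ σ|_K ∈ S` (`ιp` is injective); so `logUnits L τ ∈ logSigma`, and it kills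
`z`. By `S_P1`, `z = 0`. -/
def S_RS : Prop :=
  ∀ (K : Type) [Field K] [NumberField K] (ιinf : AlgebraicClosure K →+* ℂ)
    (ιp : AlgebraicClosure K →+* ℂ_[2]) (L : IwasawaLog 2 ℂ_[2]) (S : Set (K →+* ℂ)), IsCMType S →
    (∀ σ τ : K →+* AlgebraicClosure K, (∀ x, ‖ιp (σ x)‖ = ‖ιp (τ x)‖) →
      (ιinf.comp σ ∈ S ↔ ιinf.comp τ ∈ S)) →
  ∀ (M : IntermediateField K (AlgebraicClosure K)) [FiniteDimensional K M] [IsGalois K M]
    (χ₀ : (M ≃ₐ[K] M) →* ℂ_[2]ˣ), Function.Injective χ₀ → Odd (finrank K M) →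
    1 < finrank K M →
  {N : IntermediateField K (AlgebraicClosure K) | finrank K N = 2 ∧
    TwistGood ιinf ιp L S M χ₀ N}.Infinite

end Pool.Agent.Helper38.RS
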